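import Pool.Agent.NPC.Num

/-!
# Fixing a parameter of a polynomial-time function: the exponent does not depend on the parameter
-/

namespace Pool.Agent.NPC.V11223YD

open Pool.Agent.NPC Turing Function

variable {α β γ : Type} [TEnc α] [TEnc β] [TEnc γ]

/-- A program with a time bound gives a Turing machine of Mathlib with this time bound plus one. -/
theorem toTM_time {f : α → β} {c : Cmd ℕ} {p : Polynomial ℕ}
    (h : ∀ a, Runs c (inp (bits a)) (inp (bits (f a))) (p.eval (bits a).length)) :
    ∃ h : TM2ComputableInPolyTime (bits : α → List Bool) (bits : β → List Bool) f,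
      h.time = p + 1 := by
  have key : ∀ x : α, ∃ t, t ≤ p.eval (bits x).length + 1 ∧
      Nonempty (TM2OutputsInTime (c.map (Fin.ofNat (c.bd + 1))).toTM (bits x)
        (some (bits (f x))) t) := by
    intro x
    obtain ⟨t, ht, hr⟩ := h x
    have h1 := hr.restrict (n := c.bd) (by omega)
    refine ⟨t + 1, by simpa using ht, toTM_outputs ?_⟩
    convert! h1 using 1
    · funext i
      by_cases hi : i = 0
      · subst hi; simp [inp]
      · have : (i : ℕ) ≠ 0 := fun h => hi (Fin.ext h)
        simp [inp, hi, this]
    · funext i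
      by_cases hi : i = 0
      · subst hi; simp [inp]
      · have : (i : ℕ) ≠ 0 := fun h => hi (Fin.ext h)
        simp [inp, hi, this]
  refine ⟨{ tm := (c.map (Fin.ofNat (c.bd + 1))).toTM
            inputAlphabet := Equiv.refl Bool
            outputAlphabet := Equiv.refl Bool
            time := p + 1
            outputsFun := ?_ }, rfl⟩
  intro x
  have hx := key x
  have ht := hx.choose_spec.1
  have hm := hx.choose_spec.2.some
  refine outputs_conv (List.map_id _).symm (List.map_id _).symm (ht.trans ?_) hm
  simp

/-- A natural polynomial is at most its value at one times the power given by its degree. -/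
theorem eval_le (p : Polynomial ℕ) {n : ℕ} (hn : 1 ≤ n) : p.eval n ≤ p.eval 1 * n ^ p.natDegree := by
  rw [Polynomial.eval_eq_sum_range, Polynomial.eval_eq_sum_range, Finset.sum_mul]
  refine Finset.sum_le_sum fun i hi => ?_
  rw [Finset.mem_range] at hi
  rw [one_pow, mul_one]
  exact Nat.mul_le_mul_left _ (Nat.pow_le_pow_right hn (by omega))

/-- **Fixing a parameter.** If `F (g, x)` is computable in polynomial time, then there is one
exponent `k` such that for every value `g` of the parameter a Turing machine computes
`x ↦ F (g, x)` in time `C (s + 1) ^ k`. -/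
theorem param {F : γ × α → β} (hF : Poly F) : ∃ k : ℕ, ∀ g : γ, ∃ C : ℕ,
    ∃ h : TM2ComputableInPolyTime (bits : α → List Bool) (bits : β → List Bool)
      (fun x => F (g, x)), ∀ s, h.time.eval s ≤ C * (s + 1) ^ k := by
  obtain ⟨c, p, hc⟩ := hF
  refine ⟨p.natDegree, fun g => ?_⟩
  set w : List Bool := true :: (toT g).enc with hw
  have hrun : ∀ a : α, Runs (Cmd.seq (pushL 0 w) c) (inp (bits a)) (inp (bits (F (g, a))))
      ((p.comp (Polynomial.X + Polynomial.C w.length) + Polynomial.C (w.length + 2)).eval
        (bits a).length) := by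
    intro a
    have h1 : Runs (pushL 0 w) (inp (bits a)) (inp (bits (g, a))) (w.length + 1) := by
      refine pushL_runs w _ _ ?_
      funext i
      by_cases hi : i = 0
      · subst hi
        simp [inp, hw, bits, T.enc]
      · simp [inp, hi]
    refine (h1.seq (hc (g, a))).mono ?_
    have h2 : (bits (g, a)).length = (bits a).length + w.length := by
      simp only [hw, bits, toT_pair, T.enc, List.length_cons, List.length_append]
      omega
    rw [h2]
    simp only [Polynomial.eval_add, Polynomial.eval_comp, Polynomial.eval_X, Polynomial.eval_C]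
    omega
  obtain ⟨h, ht⟩ := toTM_time (f := fun x => F (g, x)) hrun
  refine ⟨p.eval 1 * (w.length + 1) ^ p.natDegree + (w.length + 3), h, fun s => ?_⟩
  rw [ht]
  simp only [Polynomial.eval_add, Polynomial.eval_comp, Polynomial.eval_X, Polynomial.eval_C,
    Polynomial.eval_one]
  have hw1 : 1 ≤ w.length := by rw [hw]; simp
  have h1 := eval_le p (n := s + w.length) (by omega)
  have h2 : (s + w.length) ^ p.natDegree ≤ ((w.length + 1) * (s + 1)) ^ p.natDegree :=
    Nat.pow_le_pow_left (by nlinarith) _
  rw [mul_pow] at h2
  have h3 : 1 ≤ (s + 1) ^ p.natDegree := Nat.one_le_pow _ _ (by omega)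
  have h4 : p.eval 1 * (s + w.length) ^ p.natDegree ≤
      p.eval 1 * ((w.length + 1) ^ p.natDegree * (s + 1) ^ p.natDegree) :=
    Nat.mul_le_mul_left _ h2
  have h5 : w.length + 3 ≤ (w.length + 3) * (s + 1) ^ p.natDegree := Nat.le_mul_of_pos_right _ h3
  have h6 : (p.eval 1 * (w.length + 1) ^ p.natDegree + (w.length + 3)) * (s + 1) ^ p.natDegree =
    p.eval 1 * ((w.length + 1) ^ p.natDegree * (s + 1) ^ p.natDegree) +
      (w.length + 3) * (s + 1) ^ p.natDegree := by ring
  omega

end Pool.Agent.NPC.V11223YD
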