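import Pool.Agent.V11223.YD.Alg
import Pool.Agent.V11223.YD.Param
import Pool.Agent.V11223.MC.Time

/-!
# The algorithm runs in polynomial time
-/

namespace Pool.Agent.NPC.V11223YD

open Pool.Agent.V11223.YD Pool.Agent.NPC

variable {α : Type} [TEnc α]

theorem zM_poly {M : α → List (List Bool)} {x y : α → ℕ} (hM : Poly M) (hx : Poly x)
    (hy : Poly y) : Poly (fun a => zM (M a) (x a) (y a)) := by
  unfold zM
  exact Poly.getD (Poly.getD hM hx (Poly.const [])) hy (Poly.const false)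

theorem bM_upoly {M : α → List (List Bool)} (hM : Poly M) : UPoly (fun a => bM (M a)) := by
  unfold bM
  exact UPoly.length (V11223MC.headD_poly hM (Poly.const []))

theorem prof_poly {x0 j : α → ℕ} {P : α → List (ℕ × ℕ)} (hx : Poly x0) (hP : Poly P)
    (hj : Poly j) : Poly (fun a => prof (x0 a) (P a) (j a)) := by
  unfold prof
  refine Poly.add hx (Poly.sum ?_)
  refine Poly.map (F := fun _ (p : ℕ × ℕ) => p.1) ?_ (Poly.fst (Poly.snd Poly.id))
  refine Poly.filter (p := fun a p => decide (j a < p.2)) hP ?_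
  exact Poly.decide_lt (hj.comp (Poly.fst Poly.id)) (Poly.snd (Poly.snd Poly.id))

theorem profL_poly {n x0 : α → ℕ} {P : α → List (ℕ × ℕ)} (hn : UPoly n) (hx : Poly x0)
    (hP : Poly P) : Poly (fun a => profL (n a) (x0 a) (P a)) := by
  unfold profL
  exact Poly.map (F := fun a j => prof (x0 a) (P a) j) hn.range
    (prof_poly (hx.comp (Poly.fst Poly.id)) (hP.comp (Poly.fst Poly.id)) (Poly.snd Poly.id))

theorem stepL_poly {M : α → List (List Bool)} {r0 c0 : α → List ℕ} {s : α → List ℕ × List ℕ}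
    (hM : Poly M) (hr : Poly r0) (hc : Poly c0) (hs : Poly s) :
    Poly (fun a => stepL (M a) (r0 a) (c0 a) (s a)) := by
  unfold stepL
  refine Poly.pair ?_ ?_
  · refine Poly.map (F := fun a (p : ℕ × ℕ) =>
      p.1 + ((s a).2.filter fun y => !zM (M a) p.2 y).length) (Poly.zip hr (Poly.fst hs)) ?_
    refine Poly.add (Poly.fst (Poly.snd Poly.id)) (Poly.length ?_)
    refine Poly.filter (p := fun (q : α × (ℕ × ℕ)) y => !zM (M q.1) q.2.2 y)
      ((Poly.snd hs).comp (Poly.fst Poly.id)) ?_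
    exact Poly.not (zM_poly (hM.comp (Poly.fst (Poly.fst Poly.id)))
      (Poly.snd (Poly.snd (Poly.fst Poly.id))) (Poly.snd Poly.id))
  · refine Poly.map (F := fun a (p : ℕ × ℕ) =>
      p.1 + ((s a).1.filter fun x => !zM (M a) x p.2).length) (Poly.zip hc (Poly.snd hs)) ?_
    refine Poly.add (Poly.fst (Poly.snd Poly.id)) (Poly.length ?_)
    refine Poly.filter (p := fun (q : α × (ℕ × ℕ)) x => !zM (M q.1) x q.2.2)
      ((Poly.fst hs).comp (Poly.fst Poly.id)) ?_
    exact Poly.not (zM_poly (hM.comp (Poly.fst (Poly.fst Poly.id))) (Poly.snd Poly.id)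
      (Poly.snd (Poly.snd (Poly.fst Poly.id))))

theorem simL_inv (M : List (List Bool)) (r0 c0 : List ℕ) (T : List Unit) :
    ((simL M r0 c0 T).1.length ≤ r0.length ∧
      ∀ x ∈ (simL M r0 c0 T).1, x ≤ r0.sum + c0.length) ∧
    ((simL M r0 c0 T).2.length ≤ c0.length ∧
      ∀ x ∈ (simL M r0 c0 T).2, x ≤ c0.sum + r0.length) := by
  induction T using List.reverseRecOn with
  | nil =>
    refine ⟨⟨le_refl _, fun x hx => ?_⟩, ⟨le_refl _, fun x hx => ?_⟩⟩
    · exact (List.single_le_sum (fun _ _ => Nat.zero_le _) _ hx).trans (Nat.le_add_right _ _)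
    · exact (List.single_le_sum (fun _ _ => Nat.zero_le _) _ hx).trans (Nat.le_add_right _ _)
  | append_singleton T y ih =>
    have h : simL M r0 c0 (T ++ [y]) = stepL M r0 c0 (simL M r0 c0 T) := by
      unfold simL
      rw [List.foldl_append, List.foldl_cons, List.foldl_nil]
    rw [h]
    obtain ⟨⟨h1, _⟩, ⟨h3, _⟩⟩ := ih
    unfold stepL
    simp only
    refine ⟨⟨?_, fun x hx => ?_⟩, ⟨?_, fun x hx => ?_⟩⟩
    · rw [List.length_map, List.length_zip]
      exact min_le_left _ _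
    · obtain ⟨p, hp, rfl⟩ := List.mem_map.1 hx
      obtain ⟨p1, p2⟩ := p
      have h5 := (List.of_mem_zip hp).1
      exact Nat.add_le_add (List.single_le_sum (fun _ _ => Nat.zero_le _) _ h5)
        ((List.length_filter_le _ _).trans h3)
    · rw [List.length_map, List.length_zip]
      exact min_le_left _ _
    · obtain ⟨p, hp, rfl⟩ := List.mem_map.1 hx
      obtain ⟨p1, p2⟩ := p
      have h5 := (List.of_mem_zip hp).1
      exact Nat.add_le_add (List.single_le_sum (fun _ _ => Nat.zero_le _) _ h5)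
        ((List.length_filter_le _ _).trans h1)

theorem simL_poly {M : α → List (List Bool)} {r0 c0 : α → List ℕ} {T : α → List Unit}
    (hM : Poly M) (hr : Poly r0) (hc : Poly c0) (hT : Poly T) :
    Poly (fun a => simL (M a) (r0 a) (c0 a) (T a)) := by
  obtain ⟨p1, hp1⟩ := (Poly.add (Poly.sum hr) (Poly.length hc)).sz_le
  obtain ⟨p2, hp2⟩ := (Poly.add (Poly.sum hc) (Poly.length hr)).sz_le
  obtain ⟨q1, hq1⟩ := hr.sz_le
  obtain ⟨q2, hq2⟩ := hc.sz_le
  unfold simL
  refine Poly.foldl (F := fun a s (_ : Unit) => stepL (M a) (r0 a) (c0 a) s) hT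
    (Poly.pair hr hc) ?_
    ((q1 * (2 * p1 + 1) + 1) + (q2 * (2 * p2 + 1) + 1) + 1) ?_
  · have hf : Poly (fun p : α × (List ℕ × List ℕ) × Unit => p.1) := Poly.fst Poly.id
    exact stepL_poly (hM.comp hf) (hr.comp hf) (hc.comp hf) (Poly.fst (Poly.snd Poly.id))
  · intro a j _
    obtain ⟨⟨h1, h2⟩, ⟨h3, h4⟩⟩ := simL_inv (M a) (r0 a) (c0 a) ((T a).take j)
    unfold simL at h1 h2 h3 h4
    set s := ((T a).take j).foldl (fun s (_ : Unit) => stepL (M a) (r0 a) (c0 a) s)
      (r0 a, c0 a) with hs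
    have e1 := sz_le_length_mul s.1 (2 * p1.eval (sz a)) fun x hx =>
      (sz_nat_mono_le (h2 x hx)).trans (Nat.mul_le_mul_left _ (hp1 a))
    have e2 := sz_le_length_mul s.2 (2 * p2.eval (sz a)) fun x hx =>
      (sz_nat_mono_le (h4 x hx)).trans (Nat.mul_le_mul_left _ (hp2 a))
    have e3 : s.1.length ≤ q1.eval (sz a) := h1.trans ((length_lt_sz _).le.trans (hq1 a))
    have e4 : s.2.length ≤ q2.eval (sz a) := h3.trans ((length_lt_sz _).le.trans (hq2 a))
    have e5 : s.1.length * (2 * p1.eval (sz a) + 1) ≤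
        q1.eval (sz a) * (2 * p1.eval (sz a) + 1) := Nat.mul_le_mul_right _ e3
    have e6 : s.2.length * (2 * p2.eval (sz a) + 1) ≤
        q2.eval (sz a) * (2 * p2.eval (sz a) + 1) := Nat.mul_le_mul_right _ e4
    have e7 : sz s = sz s.1 + sz s.2 + 1 := sz_pair s.1 s.2
    rw [e7]
    simp only [Polynomial.eval_add, Polynomial.eval_mul, Polynomial.eval_one,
      Polynomial.eval_ofNat]
    omega

theorem feasB_poly {M : α → List (List Bool)} {T : α → List Unit} {x0 y0 : α → ℕ}
    {P Q : α → List (ℕ × ℕ)} (hM : Poly M) (hT : Poly T) (hx : Poly x0) (hy : Poly y0)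
    (hP : Poly P) (hQ : Poly Q) :
    Poly (fun a => feasB (M a) (T a) (x0 a) (y0 a) (P a) (Q a)) := by
  unfold feasB
  have hs := simL_poly hM (profL_poly (UPoly.add (bM_upoly hM) (UPoly.const 1)) hx hP)
    (profL_poly (UPoly.add (UPoly.length hM) (UPoly.const 1)) hy hQ) hT
  exact Poly.not (zM_poly hM
    (Poly.getD (Poly.fst hs) (bM_upoly hM).toPoly (Poly.const 0))
    (Poly.getD (Poly.snd hs) (Poly.length hM) (Poly.const 0)))

theorem tup_poly {β : Type} [TEnc β] {B K : α → List Unit} {A : α → List β} (hB : Poly B)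
    (hA : Poly A) (hK : Poly K) : Poly (fun a => tup (B a) (A a) (K a)) := by
  obtain ⟨pB, hpB⟩ := hB.sz_le
  obtain ⟨pA, hpA⟩ := hA.sz_le
  obtain ⟨pK, hpK⟩ := hK.sz_le
  unfold tup
  refine Poly.foldl (F := fun a E (_ : Unit) =>
    (((A a).flatMap fun b => E.map fun l => b :: l).zip (B a)).map Prod.fst) hK
    (Poly.const [[]]) ?_ ((pB + 1) * ((pK * (pA + 1) + 1) + 1) + 1) ?_
  · have hf : Poly (fun p : α × List (List β) × Unit => p.1) := Poly.fst Poly.id
    refine Poly.map (F := fun _ (p : List β × Unit) => p.1) ?_ (Poly.fst (Poly.snd Poly.id))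
    refine Poly.zip ?_ (hB.comp hf)
    refine Poly.flatMap (F := fun (p : α × List (List β) × Unit) b =>
      p.2.1.map fun l => b :: l) (hA.comp hf) ?_
    refine Poly.map (F := fun (q : (α × List (List β) × Unit) × β) l => q.2 :: l)
      (Poly.fst (Poly.snd (Poly.fst Poly.id))) ?_
    exact Poly.cons (Poly.snd (Poly.fst Poly.id)) (Poly.snd Poly.id)
  · intro a j _
    have h1 := tup_mem (B a) (A a) ((K a).take j)
    have h2 := tup_length_le (B a) (A a) ((K a).take j)
    unfold tup at h1 h2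
    have hKl : ((K a).take j).length ≤ pK.eval (sz a) := by
      refine le_trans ?_ ((length_lt_sz _).le.trans (hpK a))
      rw [List.length_take]
      exact min_le_right _ _
    have hBl : max 1 (B a).length ≤ pB.eval (sz a) + 1 := by
      have := (length_lt_sz (B a)).le.trans (hpB a)
      omega
    have e1 := sz_le_length_mul _ (pK.eval (sz a) * (pA.eval (sz a) + 1) + 1) fun l hl => by
      refine (sz_le_length_mul l (pA.eval (sz a)) fun b hb =>
        ((sz_le_of_mem ((h1 l hl).2 b hb)).le.trans (hpA a))).trans ?_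
      rw [(h1 l hl).1]
      exact Nat.add_le_add_right (Nat.mul_le_mul_right _ hKl) 1
    refine e1.trans ?_
    simp only [Polynomial.eval_add, Polynomial.eval_mul, Polynomial.eval_one]
    exact Nat.add_le_add_right (Nat.mul_le_mul_right _ (h2.trans hBl)) 1

theorem budget_poly {pad : α → List Unit} {M : α → List (List Bool)} (hp : Poly pad)
    (hM : Poly M) : Poly (fun a => budget (pad a) (M a)) := by
  unfold budget
  refine Poly.flatMap (F := fun a (_ : Unit) => (List.range ((M a).length + 1)).flatMap fun _ =>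
    (List.range (bM (M a) + 1)).map fun _ => ()) hp ?_
  refine Poly.flatMap (F := fun (p : α × Unit) (_ : ℕ) =>
    (List.range (bM (M p.1) + 1)).map fun _ => ())
    (UPoly.add (UPoly.length (hM.comp (Poly.fst Poly.id))) (UPoly.const 1)).range ?_
  exact Poly.map (F := fun (_ : (α × Unit) × ℕ) (_ : ℕ) => ())
    (UPoly.add (bM_upoly (hM.comp (Poly.fst (Poly.fst Poly.id)))) (UPoly.const 1)).range
    (Poly.const ())

theorem pw2_poly {n : α → ℕ} (hn : Poly n) : Poly (fun a => pw2 (n a)) := by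
  unfold pw2
  refine Poly.cons (Poly.const 0) ?_
  have hs : UPoly (fun a => (n a).size + 1) := UPoly.add (V11223MC.size_upoly hn) (UPoly.const 1)
  have h : Poly (fun a => (List.range ((n a).size + 1)).map fun p =>
      2 ^ (min p ((n a).size + 1))) := by
    refine Poly.map (F := fun a p => 2 ^ (min p ((n a).size + 1))) hs.range ?_
    refine V11223MC.two_pow_poly ?_
    refine UPoly.of_le (n := fun p : α × ℕ => (n p.1).size + 1)
      (Poly.min (Poly.snd Poly.id) (hs.toPoly.comp (Poly.fst Poly.id)))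
      (hs.comp (Poly.fst Poly.id)) fun p => min_le_right _ _
  refine h.congr fun a => ?_
  refine List.map_congr_left fun p hp => ?_
  rw [List.mem_range] at hp
  rw [min_eq_left (by omega)]

theorem prs_poly {a' b' : α → ℕ} (ha : Poly a') (hb : Poly b') :
    Poly (fun x => prs (a' x) (b' x)) := by
  unfold prs
  refine Poly.flatMap (F := fun x u => (pw2 (b' x)).map fun M => (u, min M (b' x)))
    (pw2_poly ha) ?_
  refine Poly.map (F := fun (p : α × ℕ) M => (p.2, min M (b' p.1)))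
    (pw2_poly (hb.comp (Poly.fst Poly.id))) ?_
  exact Poly.pair (Poly.snd (Poly.fst Poly.id))
    (Poly.min (Poly.snd Poly.id) (hb.comp (Poly.fst (Poly.fst Poly.id))))

theorem lvl_poly {P : α → List (ℕ × ℕ)} (hP : Poly P) : Poly (fun a => lvl (P a)) := by
  unfold lvl
  exact Poly.sum (Poly.map (F := fun _ (p : ℕ × ℕ) => p.1 * p.2) hP
    (Poly.mul (Poly.fst (Poly.snd Poly.id)) (Poly.snd (Poly.snd Poly.id))))

theorem outT_poly {pad K T : α → List Unit} {M : α → List (List Bool)} (hpad : Poly pad)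
    (hK : Poly K) (hT : Poly T) (hM : Poly M) :
    Poly (fun a => outT (pad a) (K a) (T a) (M a)) := by
  unfold outT
  have hB := budget_poly hpad hM
  have hl : Poly (fun a => (M a).length) := Poly.length hM
  have hb : Poly (fun a => bM (M a)) := (bM_upoly hM).toPoly
  refine Poly.flatMap (F := fun a P =>
    (tup (budget (pad a) (M a)) (prs (bM (M a)) (M a).length) (K a)).flatMap fun Q =>
      (pw2 (M a).length).flatMap fun x0 => (pw2 (bM (M a))).flatMap fun y0 =>
        bif feasB (M a) (T a) x0 y0 P Q then [(x0, y0, lvl P + lvl Q)] else [])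
    (tup_poly hB (prs_poly hl hb) hK) ?_
  have f1 : Poly (fun p : α × List (ℕ × ℕ) => p.1) := Poly.fst Poly.id
  refine Poly.flatMap (F := fun (p : α × List (ℕ × ℕ)) Q =>
    (pw2 (M p.1).length).flatMap fun x0 => (pw2 (bM (M p.1))).flatMap fun y0 =>
        bif feasB (M p.1) (T p.1) x0 y0 p.2 Q then [(x0, y0, lvl p.2 + lvl Q)] else [])
    ((tup_poly hB (prs_poly hb hl) hK).comp f1) ?_
  have f2 : Poly (fun p : (α × List (ℕ × ℕ)) × List (ℕ × ℕ) => p.1.1) :=
    Poly.fst (Poly.fst Poly.id)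
  refine Poly.flatMap (F := fun (p : (α × List (ℕ × ℕ)) × List (ℕ × ℕ)) x0 =>
    (pw2 (bM (M p.1.1))).flatMap fun y0 =>
        bif feasB (M p.1.1) (T p.1.1) x0 y0 p.1.2 p.2 then
          [(x0, y0, lvl p.1.2 + lvl p.2)] else [])
    (pw2_poly (hl.comp f2)) ?_
  have f3 : Poly (fun p : ((α × List (ℕ × ℕ)) × List (ℕ × ℕ)) × ℕ => p.1.1.1) :=
    Poly.fst (Poly.fst (Poly.fst Poly.id))
  refine Poly.flatMap (F := fun (p : ((α × List (ℕ × ℕ)) × List (ℕ × ℕ)) × ℕ) y0 =>
        bif feasB (M p.1.1.1) (T p.1.1.1) p.2 y0 p.1.1.2 p.1.2 then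
          [(p.2, y0, lvl p.1.1.2 + lvl p.1.2)] else [])
    (pw2_poly (hb.comp f3)) ?_
  have f4 : Poly (fun p : (((α × List (ℕ × ℕ)) × List (ℕ × ℕ)) × ℕ) × ℕ => p.1.1.1.1) :=
    Poly.fst (Poly.fst (Poly.fst (Poly.fst Poly.id)))
  have fP : Poly (fun p : (((α × List (ℕ × ℕ)) × List (ℕ × ℕ)) × ℕ) × ℕ => p.1.1.1.2) :=
    Poly.snd (Poly.fst (Poly.fst (Poly.fst Poly.id)))
  have fQ : Poly (fun p : (((α × List (ℕ × ℕ)) × List (ℕ × ℕ)) × ℕ) × ℕ => p.1.1.2) :=
    Poly.snd (Poly.fst (Poly.fst Poly.id))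
  have fx : Poly (fun p : (((α × List (ℕ × ℕ)) × List (ℕ × ℕ)) × ℕ) × ℕ => p.1.2) :=
    Poly.snd (Poly.fst Poly.id)
  have fy : Poly (fun p : (((α × List (ℕ × ℕ)) × List (ℕ × ℕ)) × ℕ) × ℕ => p.2) :=
    Poly.snd Poly.id
  exact Poly.cond (feasB_poly (hM.comp f4) (hT.comp f4) fx fy fP fQ)
    (Poly.cons (Poly.pair fx (Poly.pair fy (Poly.add (lvl_poly fP) (lvl_poly fQ))))
      (Poly.const [])) (Poly.const [])

theorem outL_poly {p : α → List Unit × List Unit × List Unit} {M : α → List (List Bool)}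
    (hp : Poly p) (hM : Poly M) : Poly (fun a => outL (p a) (M a)) := by
  unfold outL
  exact Poly.cond (Poly.isEmpty (Poly.snd (Poly.snd hp))) (Poly.const [])
    (outT_poly (Poly.fst hp) (Poly.fst (Poly.snd hp)) (Poly.tail (Poly.snd (Poly.snd hp))) hM)

theorem evalMin_poly {m n : α → ℕ} {l : α → List (ℕ × ℕ × ℕ)} (hm : Poly m) (hn : Poly n)
    (hl : Poly l) : Poly (fun a => evalMin (m a) (n a) (l a)) := by
  obtain ⟨p, hp⟩ := (Poly.mul hn hm).sz_le
  unfold evalMin
  refine Poly.foldl (F := fun a v (q : ℕ × ℕ × ℕ) => min v (q.1 * m a + q.2.1 * n a + q.2.2)) hl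
    (Poly.mul hn hm) ?_ (2 * p) ?_
  · have hf : Poly (fun p : α × ℕ × (ℕ × ℕ × ℕ) => p.1) := Poly.fst Poly.id
    have hq : Poly (fun p : α × ℕ × (ℕ × ℕ × ℕ) => p.2.2) := Poly.snd (Poly.snd Poly.id)
    refine Poly.min (Poly.fst (Poly.snd Poly.id)) ?_
    exact Poly.add (Poly.add (Poly.mul (Poly.fst hq) (hm.comp hf))
      (Poly.mul (Poly.fst (Poly.snd hq)) (hn.comp hf))) (Poly.snd (Poly.snd hq))
  · intro a j _
    have h := (foldl_min_le (fun q : ℕ × ℕ × ℕ => q.1 * m a + q.2.1 * n a + q.2.2)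
      ((l a).take j) (n a * m a)).1
    refine (sz_nat_mono_le h).trans ?_
    simp only [Polynomial.eval_mul, Polynomial.eval_ofNat]
    exact Nat.mul_le_mul_left _ (hp a)

end Pool.Agent.NPC.V11223YD
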