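import Pool.Agent.V11223.YD.Bound

/-!
# The algorithm on lists and its correctness
-/

namespace Pool.Agent.V11223.YD

/-- The zero-set as a matrix: `a` columns with `b` entries each. -/
def mat (Z : Finset (ℕ × ℕ)) (a b : ℕ) : List (List Bool) :=
  (List.range a).map fun x => (List.range b).map fun y => decide ((x, y) ∈ Z)

/-- entry of a matrix -/
def zM (M : List (List Bool)) (x y : ℕ) : Bool := (M.getD x []).getD y false

/-- height of a matrix -/
def bM (M : List (List Bool)) : ℕ := (M.headD []).length

/-- one step of the dynamics, on lists -/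
def stepL (M : List (List Bool)) (r0 c0 : List ℕ) (s : List ℕ × List ℕ) : List ℕ × List ℕ :=
  ((r0.zip s.1).map fun p => p.1 + (s.2.filter fun y => !zM M p.2 y).length,
    (c0.zip s.2).map fun p => p.1 + (s.1.filter fun x => !zM M x p.2).length)

/-- the dynamics on lists -/
def simL (M : List (List Bool)) (r0 c0 : List ℕ) (T : List Unit) : List ℕ × List ℕ :=
  T.foldl (fun s _ => stepL M r0 c0 s) (r0, c0)

/-- a profile as a list -/
def profL (n x0 : ℕ) (P : List (ℕ × ℕ)) : List ℕ := (List.range n).map fun j => prof x0 P j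

/-- test of feasibility -/
def feasB (M : List (List Bool)) (T : List Unit) (x0 y0 : ℕ) (P Q : List (ℕ × ℕ)) : Bool :=
  !zM M ((simL M (profL (bM M + 1) x0 P) (profL (M.length + 1) y0 Q) T).1.getD (bM M) 0)
    ((simL M (profL (bM M + 1) x0 P) (profL (M.length + 1) y0 Q) T).2.getD M.length 0)

/-- all tuples over an alphabet, truncated -/
def tup {β : Type} (B : List Unit) (A : List β) (K : List Unit) : List (List β) :=
  K.foldl (fun E _ => ((A.flatMap fun a => E.map fun l => a :: l).zip B).map Prod.fst) [[]]

/-- the units for the truncation -/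
def budget (pad : List Unit) (M : List (List Bool)) : List Unit :=
  pad.flatMap fun _ => (List.range (M.length + 1)).flatMap fun _ =>
    (List.range (bM M + 1)).map fun _ => ()

/-- The list of the feasible tuples found, with `pad`, `K` and `T` in unary. -/
def outT (pad K T : List Unit) (M : List (List Bool)) : List (ℕ × ℕ × ℕ) :=
  (tup (budget pad M) (prs M.length (bM M)) K).flatMap fun P =>
    (tup (budget pad M) (prs (bM M) M.length) K).flatMap fun Q =>
      (pw2 M.length).flatMap fun x0 => (pw2 (bM M)).flatMap fun y0 =>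
        bif feasB M T x0 y0 P Q then [(x0, y0, lvl P + lvl Q)] else []

/-- the output for the parameters `(pad, K, L)`, where `L = 0` gives the empty list -/
def outL (p : List Unit × List Unit × List Unit) (M : List (List Bool)) : List (ℕ × ℕ × ℕ) :=
  bif p.2.2.isEmpty then [] else outT p.1 p.2.1 p.2.2.tail M

/-- The minimum of `n m` and the values `x m + y n + g` over the triples `(x, y, g)` of a list. -/
def evalMin (m n : ℕ) (l : List (ℕ × ℕ × ℕ)) : ℕ :=
  l.foldl (fun v q => min v (q.1 * m + q.2.1 * n + q.2.2)) (n * m)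

/-! ### Minimum -/

theorem foldl_min_le {β : Type} (f : β → ℕ) (l : List β) : ∀ v : ℕ,
    l.foldl (fun v q => min v (f q)) v ≤ v ∧ ∀ q ∈ l, l.foldl (fun v q => min v (f q)) v ≤ f q := by
  induction l with
  | nil => intro v; simp
  | cons a l ih =>
    intro v
    rw [List.foldl_cons]
    obtain ⟨h1, h2⟩ := ih (min v (f a))
    refine ⟨h1.trans (min_le_left _ _), ?_⟩
    intro q hq
    rcases List.mem_cons.1 hq with rfl | hq
    · exact h1.trans (min_le_right _ _)
    · exact h2 q hq

theorem le_foldl_min {β : Type} (f : β → ℕ) (l : List β) : ∀ v w : ℕ, w ≤ v →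
    (∀ q ∈ l, w ≤ f q) → w ≤ l.foldl (fun v q => min v (f q)) v := by
  induction l with
  | nil => intro v w h _; exact h
  | cons a l ih =>
    intro v w h hl
    rw [List.foldl_cons]
    exact ih _ w (le_min h (hl a (by simp))) fun q hq => hl q (List.mem_cons_of_mem _ hq)

/-! ### Simulation -/

theorem length_filter_map_range (n : ℕ) (f : ℕ → ℕ) (p : ℕ → Bool) :
    (((List.range n).map f).filter fun y => !p y).length =
      ((Finset.range n).filter fun i => p (f i) = false).card := by
  rw [List.filter_map, List.length_map]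
  have h : ((Finset.range n).filter fun i => p (f i) = false) =
      ((List.range n).filter fun i => !p (f i)).toFinset := by
    ext i
    simp
  rw [h, List.toFinset_card_of_nodup (List.nodup_range.filter _)]
  rfl

theorem zip_map_range {β γ : Type} (n : ℕ) (f : ℕ → β) (g : ℕ → γ) :
    ((List.range n).map f).zip ((List.range n).map g) = (List.range n).map fun i => (f i, g i) := by
  rw [List.zip_map', ]

theorem stepL_eq (M : List (List Bool)) (m n : ℕ) (r c u v : ℕ → ℕ) :
    stepL M ((List.range m).map r) ((List.range n).map c)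
      ((List.range m).map u, (List.range n).map v) =
    ((List.range m).map fun j => r j + ((Finset.range n).filter fun i =>
        zM M (u j) (v i) = false).card,
      (List.range n).map fun i => c i + ((Finset.range m).filter fun j =>
        zM M (u j) (v i) = false).card) := by
  unfold stepL
  simp only
  rw [zip_map_range, zip_map_range, List.map_map, List.map_map]
  refine Prod.ext ?_ ?_
  · refine List.map_congr_left fun j _ => ?_
    simp only [Function.comp]
    rw [length_filter_map_range n v (fun y => zM M (u j) y)]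
  · refine List.map_congr_left fun i _ => ?_
    simp only [Function.comp]
    rw [length_filter_map_range m u (fun x => zM M x (v i))]

theorem simL_eq (M : List (List Bool)) (m n : ℕ) (r c : ℕ → ℕ) (T : List Unit) :
    simL M ((List.range m).map r) ((List.range n).map c) T =
      ((List.range m).map (udyn (zM M) m n r c T.length).1,
        (List.range n).map (udyn (zM M) m n r c T.length).2) := by
  induction T using List.reverseRecOn with
  | nil => rfl
  | append_singleton T x ih =>
    unfold simL at ih ⊢
    rw [List.foldl_append, List.foldl_cons, List.foldl_nil, ih, List.length_append,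
      List.length_singleton, stepL_eq]
    rfl

theorem feasB_eq (M : List (List Bool)) (T : List Unit) (x0 y0 : ℕ) (P Q : List (ℕ × ℕ)) :
    feasB M T x0 y0 P Q = !zM M
      ((udyn (zM M) (bM M + 1) (M.length + 1) (prof x0 P) (prof y0 Q) T.length).1 (bM M))
      ((udyn (zM M) (bM M + 1) (M.length + 1) (prof x0 P) (prof y0 Q) T.length).2 M.length) := by
  unfold feasB profL
  rw [simL_eq]
  simp only [List.getD_eq_getElem?_getD, List.getElem?_map]
  rw [List.getElem?_range (by omega), List.getElem?_range (by omega)]
  rfl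

/-! ### Enumeration of tuples -/

section
variable {β : Type}

theorem zip_fst_eq_take (l : List β) (B : List Unit) :
    (l.zip B).map Prod.fst = l.take B.length := by
  induction l generalizing B with
  | nil => simp
  | cons a l ih =>
    cases B with
    | nil => simp
    | cons b B => simp [ih]

theorem tup_mem (B : List Unit) (A : List β) (K : List Unit) :
    ∀ l ∈ tup B A K, l.length = K.length ∧ ∀ a ∈ l, a ∈ A := by
  induction K using List.reverseRecOn with
  | nil => intro l hl; simp [tup] at hl; simp [hl]
  | append_singleton K x ih =>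
    intro l hl
    unfold tup at hl ih
    rw [List.foldl_append, List.foldl_cons, List.foldl_nil, zip_fst_eq_take] at hl
    have hl := List.mem_of_mem_take hl
    rw [List.mem_flatMap] at hl
    obtain ⟨a, ha, hl⟩ := hl
    obtain ⟨l', hl', rfl⟩ := List.mem_map.1 hl
    obtain ⟨h1, h2⟩ := ih l' hl'
    refine ⟨by simp [h1], ?_⟩
    intro a' ha'
    rcases List.mem_cons.1 ha' with rfl | ha'
    · exact ha
    · exact h2 a' ha'

theorem tup_length_le (B : List Unit) (A : List β) (K : List Unit) :
    (tup B A K).length ≤ max 1 B.length := by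
  cases K using List.reverseRecOn with
  | nil => simp [tup]
  | append_singleton K x =>
    unfold tup
    rw [List.foldl_append, List.foldl_cons, List.foldl_nil, zip_fst_eq_take, List.length_take]
    omega

theorem tup_full (B : List Unit) (A : List β) (hA : A ≠ []) (K : List Unit)
    (hB : A.length ^ K.length ≤ B.length) : (tup B A K).length = A.length ^ K.length ∧
      ∀ l : List β, l.length = K.length → (∀ a ∈ l, a ∈ A) → l ∈ tup B A K := by
  have hA1 : 0 < A.length := List.length_pos_iff.2 hA
  induction K using List.reverseRecOn with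
  | nil =>
    refine ⟨rfl, ?_⟩
    intro l hl _
    rw [List.length_nil, List.length_eq_zero_iff] at hl
    simp [tup, hl]
  | append_singleton K x ih =>
    rw [List.length_append, List.length_singleton, pow_succ] at hB
    have h1 : A.length ^ K.length ≤ B.length :=
      le_trans (Nat.le_mul_of_pos_right _ hA1) hB
    obtain ⟨ih1, ih2⟩ := ih h1
    have hlen : (A.flatMap fun a => (tup B A K).map fun l => a :: l).length =
        A.length ^ K.length * A.length := by
      rw [List.length_flatMap]
      simp only [List.length_map]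
      rw [ih1, List.map_const', List.sum_replicate, smul_eq_mul, mul_comm]
    have heq : tup B A (K ++ [x]) = A.flatMap fun a => (tup B A K).map fun l => a :: l := by
      conv_lhs => unfold tup
      rw [List.foldl_append, List.foldl_cons, List.foldl_nil, zip_fst_eq_take]
      exact List.take_of_length_le (hlen.trans_le hB)
    rw [heq]
    refine ⟨by rw [hlen, List.length_append, List.length_singleton, pow_succ], ?_⟩
    intro l hl hmem
    cases l with
    | nil => simp at hl
    | cons a l =>
      rw [List.mem_flatMap]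
      refine ⟨a, hmem a (by simp), List.mem_map.2 ⟨l, ih2 l ?_ ?_, rfl⟩⟩
      · simpa using hl
      · exact fun b hb => hmem b (List.mem_cons_of_mem _ hb)

end

theorem budget_length (pad : List Unit) (M : List (List Bool)) :
    (budget pad M).length = pad.length * ((M.length + 1) * (bM M + 1)) := by
  unfold budget
  simp [List.length_flatMap]

theorem pw2_length (a : ℕ) : (pw2 a).length = a.size + 2 := by simp [pw2]

theorem prs_length (a b : ℕ) : (prs a b).length = (a.size + 2) * (b.size + 2) := by
  unfold prs
  rw [List.length_flatMap]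
  simp only [List.length_map, pw2_length]
  rw [List.map_const', List.sum_replicate, smul_eq_mul, pw2_length]

/-! ### Powers of logarithms -/

theorem pow_le_two_pow (K : ℕ) : ∃ D : ℕ, ∀ t : ℕ, (t + 2) ^ K ≤ D * 2 ^ t := by
  refine ⟨K.factorial * 2 ^ (K + 2), fun t => ?_⟩
  have h1 : (t + 2) ^ K ≤ (t + 2).ascFactorial K := Nat.pow_succ_le_ascFactorial _ _
  have h2 : (t + 2).ascFactorial K = K.factorial * (t + 1 + K).choose K := by
    exact Nat.ascFactorial_eq_factorial_mul_choose (t + 1) K
  have h3 : (t + 1 + K).choose K ≤ 2 ^ (t + 1 + K) := Nat.choose_le_two_pow _ _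
  calc (t + 2) ^ K ≤ K.factorial * (t + 1 + K).choose K := h2 ▸ h1
    _ ≤ K.factorial * 2 ^ (t + 1 + K) := Nat.mul_le_mul_left _ h3
    _ ≤ K.factorial * 2 ^ (K + 2) * 2 ^ t := by
        rw [mul_assoc, ← pow_add]
        exact Nat.mul_le_mul_left _ (Nat.pow_le_pow_right (by norm_num) (by omega))

theorem two_pow_size_le (a : ℕ) : 2 ^ a.size ≤ 2 * (a + 1) := by
  have h : up a = if a = 0 then 0 else 2 ^ a.size := rfl
  have h2 := up_le a
  by_cases ha : a = 0
  · subst ha; simp
  · rw [h, if_neg ha] at h2
    omega

theorem exists_pad (K : ℕ) : ∃ D : ℕ, ∀ a b : ℕ,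
    ((a.size + 2) * (b.size + 2)) ^ K ≤ D * ((a + 1) * (b + 1)) := by
  obtain ⟨D, hD⟩ := pow_le_two_pow K
  refine ⟨4 * D * D, fun a b => ?_⟩
  rw [mul_pow]
  calc (a.size + 2) ^ K * (b.size + 2) ^ K ≤ (D * 2 ^ a.size) * (D * 2 ^ b.size) :=
        Nat.mul_le_mul (hD _) (hD _)
    _ ≤ (D * (2 * (a + 1))) * (D * (2 * (b + 1))) :=
        Nat.mul_le_mul (Nat.mul_le_mul_left _ (two_pow_size_le a))
          (Nat.mul_le_mul_left _ (two_pow_size_le b))
    _ = 4 * D * D * ((a + 1) * (b + 1)) := by ring

/-! ### Correctness -/

theorem zM_mat (Z : Finset (ℕ × ℕ)) {a b : ℕ} (hZ : Z ⊆ Rect a b) : zM (mat Z a b) = zf Z := by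
  funext x y
  unfold zM mat zf
  by_cases hx : x < a
  · have h1 : ((List.range a).map fun x => (List.range b).map fun y =>
        decide ((x, y) ∈ Z)).getD x [] = (List.range b).map fun y => decide ((x, y) ∈ Z) := by
      rw [List.getD_eq_getElem?_getD, List.getElem?_map, List.getElem?_range hx]
      rfl
    rw [h1]
    by_cases hy : y < b
    · rw [List.getD_eq_getElem?_getD, List.getElem?_map, List.getElem?_range hy]
      rfl
    · rw [List.getD_eq_default _ _ (by simpa using hy)]
      symm
      rw [decide_eq_false_iff_not]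
      intro h
      exact hy (mem_Rect.1 (hZ h)).2
  · have h1 : ((List.range a).map fun x => (List.range b).map fun y =>
        decide ((x, y) ∈ Z)).getD x [] = [] :=
      List.getD_eq_default _ _ (by simpa using hx)
    rw [h1]
    have : decide ((x, y) ∈ Z) = false := by
      rw [decide_eq_false_iff_not]
      intro h
      exact hx (mem_Rect.1 (hZ h)).1
    rw [this]
    simp

theorem mat_length (Z : Finset (ℕ × ℕ)) (a b : ℕ) : (mat Z a b).length = a := by simp [mat]

theorem bM_mat (Z : Finset (ℕ × ℕ)) {a : ℕ} (b : ℕ) (ha : 0 < a) : bM (mat Z a b) = b := by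
  obtain ⟨a, rfl⟩ : ∃ a', a = a' + 1 := ⟨a - 1, by omega⟩
  unfold bM mat
  rw [List.range_succ_eq_map]
  simp

theorem bM_mat0 (Z : Finset (ℕ × ℕ)) (b : ℕ) : bM (mat Z 0 b) = 0 := by simp [bM, mat]

theorem bM_le (Z : Finset (ℕ × ℕ)) (a b : ℕ) : bM (mat Z a b) ≤ b := by
  rcases Nat.eq_zero_or_pos a with rfl | ha
  · rw [bM_mat0]; omega
  · rw [bM_mat Z b ha]

theorem sub_Rect {Z : Finset (ℕ × ℕ)} {a b : ℕ} (h : Z ⊆ Rect a b) :
    Z ⊆ Rect (mat Z a b).length (bM (mat Z a b)) := by
  rcases Nat.eq_zero_or_pos a with rfl | ha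
  · intro v hv
    have := mem_Rect.1 (h hv)
    omega
  · rw [mat_length, bM_mat Z b ha]
    exact h

theorem mem_outT {pad K T : List Unit} {M : List (List Bool)} {q : ℕ × ℕ × ℕ} :
    q ∈ outT pad K T M ↔ ∃ P ∈ tup (budget pad M) (prs M.length (bM M)) K,
      ∃ Q ∈ tup (budget pad M) (prs (bM M) M.length) K, ∃ x0 ∈ pw2 M.length, ∃ y0 ∈ pw2 (bM M),
        feasB M T x0 y0 P Q = true ∧ q = (x0, y0, lvl P + lvl Q) := by
  unfold outT
  constructor
  · intro h
    obtain ⟨P, hP, h⟩ := List.mem_flatMap.1 h
    obtain ⟨Q, hQ, h⟩ := List.mem_flatMap.1 h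
    obtain ⟨x0, hx0, h⟩ := List.mem_flatMap.1 h
    obtain ⟨y0, hy0, h⟩ := List.mem_flatMap.1 h
    refine ⟨P, hP, Q, hQ, x0, hx0, y0, hy0, ?_⟩
    cases hf : feasB M T x0 y0 P Q with
    | false => rw [hf] at h; simp at h
    | true => rw [hf] at h; exact ⟨rfl, by simpa using h⟩
  · rintro ⟨P, hP, Q, hQ, x0, hx0, y0, hy0, hf, rfl⟩
    refine List.mem_flatMap.2 ⟨P, hP, List.mem_flatMap.2 ⟨Q, hQ, List.mem_flatMap.2
      ⟨x0, hx0, List.mem_flatMap.2 ⟨y0, hy0, ?_⟩⟩⟩⟩
    rw [hf]
    simp

theorem gam_le_mul (L : ℕ) (Z : Finset (ℕ × ℕ)) (m n : ℕ) : gam L Z m n ≤ n * m := by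
  have h : (stepT Z m n)^[L] (Rect n m) = Rect n m := by
    refine Function.iterate_fixed ?_ L
    unfold stepT
    rw [Finset.union_eq_left]
    exact Finset.filter_subset _ _
  have h2 := gam_le (subset_refl (Rect n m)) h
  unfold Rect at h2
  rw [Finset.card_product, Finset.card_range, Finset.card_range] at h2
  exact h2

theorem exists_opt (L : ℕ) (Z : Finset (ℕ × ℕ)) (m n : ℕ) :
    ∃ A ⊆ Rect n m, (stepT Z m n)^[L] A = Rect n m ∧ A.card = gam L Z m n := by
  have hne : {k | ∃ A ⊆ Rect n m, (stepT Z m n)^[L] A = Rect n m ∧ A.card = k}.Nonempty := by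
    refine ⟨_, Rect n m, subset_refl _, ?_, rfl⟩
    refine Function.iterate_fixed ?_ L
    unfold stepT
    rw [Finset.union_eq_left]
    exact Finset.filter_subset _ _
  exact Nat.sInf_mem hne

theorem gam_zero (Z : Finset (ℕ × ℕ)) (m n : ℕ) : gam 0 Z m n = n * m := by
  obtain ⟨A, _, h2, h3⟩ := exists_opt 0 Z m n
  simp only [Function.iterate_zero, id] at h2
  rw [h2] at h3
  unfold Rect at h3
  rw [Finset.card_product, Finset.card_range, Finset.card_range] at h3
  exact h3.symm

theorem size_add_two_le (a : ℕ) : a.size + 2 ≤ 2 * (a + 1) := by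
  have h : a.size ≤ a := Nat.size_le.2 Nat.lt_two_pow_self
  omega

theorem length_flatMap_le {β γ : Type} (l : List β) (f : β → List γ) (B : ℕ)
    (h : ∀ x ∈ l, (f x).length ≤ B) : (l.flatMap f).length ≤ l.length * B := by
  induction l with
  | nil => simp
  | cons x l ih =>
    rw [List.flatMap_cons, List.length_append, List.length_cons, Nat.add_mul, one_mul]
    have h1 := ih fun y hy => h y (List.mem_cons_of_mem _ hy)
    have h2 := h x (by simp)
    omega

theorem outL_length_le (p : List Unit × List Unit × List Unit) (M : List (List Bool)) :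
    (outL p M).length ≤ 4 * (p.1.length + 1) ^ 2 * ((M.length + 1) * (bM M + 1)) ^ 3 := by
  unfold outL
  cases p.2.2.isEmpty with
  | true => simp
  | false =>
    rw [cond_false]
    set X := (M.length + 1) * (bM M + 1) with hX
    have hX1 : 1 ≤ X := Nat.succ_le_of_lt (Nat.mul_pos (by omega) (by omega))
    have hB : max 1 (budget p.1 M).length ≤ (p.1.length + 1) * X := by
      rw [budget_length]
      refine max_le ?_ ?_
      · exact Nat.succ_le_of_lt (Nat.mul_pos (by omega) hX1)
      · exact Nat.mul_le_mul_right _ (by omega)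
    have h3 : (pw2 M.length).length * ((pw2 (bM M)).length * 1) ≤ 4 * X := by
      rw [pw2_length, pw2_length, mul_one]
      calc (M.length.size + 2) * ((bM M).size + 2) ≤
            (2 * (M.length + 1)) * (2 * (bM M + 1)) :=
            Nat.mul_le_mul (size_add_two_le _) (size_add_two_le _)
        _ = 4 * X := by rw [hX]; ring
    unfold outT
    have hmain : ∀ P : List (ℕ × ℕ), ∀ Q : List (ℕ × ℕ),
        ((pw2 M.length).flatMap fun x0 => (pw2 (bM M)).flatMap fun y0 =>
          bif feasB M p.2.2.tail x0 y0 P Q then [(x0, y0, lvl P + lvl Q)] else []).length ≤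
        4 * X := by
      intro P Q
      refine le_trans (length_flatMap_le _ _ ((pw2 (bM M)).length * 1) fun x0 _ => ?_) h3
      refine length_flatMap_le _ _ 1 fun y0 _ => ?_
      cases feasB M p.2.2.tail x0 y0 P Q <;> simp
    refine (length_flatMap_le _ _ (((p.1.length + 1) * X) * (4 * X)) fun P _ => ?_).trans ?_
    · refine (length_flatMap_le _ _ (4 * X) fun Q _ => hmain P Q).trans ?_
      exact Nat.mul_le_mul_right _ ((tup_length_le _ _ _).trans hB)
    · refine (Nat.mul_le_mul_right _ ((tup_length_le _ _ _).trans hB)).trans (le_of_eq ?_)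
      ring

/-- the algorithm for a given latency -/
theorem correct (L : ℕ) : ∃ (p : List Unit × List Unit × List Unit) (C : ℕ), 1 ≤ C ∧
    ∀ (a b m n : ℕ) (Z : Finset (ℕ × ℕ)), IsZero Z → Z ⊆ Rect a b → a ≤ n → b ≤ m →
      gam L Z m n ≤ evalMin m n (outL p (mat Z a b)) ∧
      evalMin m n (outL p (mat Z a b)) ≤ C * gam L Z m n := by
  cases L with
  | zero =>
    refine ⟨([], [], []), 1, le_refl _, fun a b m n Z _ _ _ _ => ?_⟩
    rw [gam_zero]
    simp [outL, evalMin]
  | succ t =>
    obtain ⟨D, hD⟩ := exists_pad (2 ^ (t + 1))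
    refine ⟨(List.replicate D (), List.replicate (2 ^ (t + 1)) (), List.replicate (t + 1) ()),
      6 + 8 * 2 ^ (t + 1), by omega, ?_⟩
    intro a b m n Z hZ hab han hbm
    set M := mat Z a b with hM
    have hzM : zM M = zf Z := zM_mat Z hab
    have ha : M.length ≤ n := by rw [mat_length]; exact han
    have hb : bM M ≤ m := (bM_le Z a b).trans hbm
    have hsub : Z ⊆ Rect M.length (bM M) := sub_Rect hab
    have hout : outL (List.replicate D (), List.replicate (2 ^ (t + 1)) (),
        List.replicate (t + 1) ()) M = outT (List.replicate D ())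
          (List.replicate (2 ^ (t + 1)) ()) (List.replicate t ()) M := by
      unfold outL
      simp [List.replicate_succ]
    rw [hout]
    constructor
    · unfold evalMin
      refine le_foldl_min _ _ _ _ (gam_le_mul _ _ _ _) ?_
      intro q hq
      obtain ⟨P, hP, Q, hQ, x0, _, y0, _, hf, rfl⟩ := mem_outT.1 hq
      rw [feasB_eq, hzM, List.length_replicate, Bool.not_eq_true'] at hf
      exact gam_le_of_feasible hZ hsub ha hb
        (fun p hp => prs_count ((tup_mem _ _ _ P hP).2 p hp))
        (fun p hp => prs_count ((tup_mem _ _ _ Q hQ).2 p hp)) hf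
    · obtain ⟨A, hA, hfull, hcard⟩ := exists_opt (t + 1) Z m n
      obtain ⟨x0, hx0, y0, hy0, P, Q, hP, hQ, hP2, hQ2, hf, hcost⟩ :=
        exists_feasible hZ hsub ha hb t hA hfull
      rw [← hcard]
      refine le_trans ?_ hcost
      have hPm : P ∈ tup (budget (List.replicate D ()) M) (prs M.length (bM M))
          (List.replicate (2 ^ (t + 1)) ()) := by
        refine (tup_full _ _ (List.ne_nil_of_mem (zero_mem _ _)) _ ?_).2 P ?_ hP2
        · rw [budget_length, List.length_replicate, List.length_replicate, prs_length]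
          exact hD _ _
        · rw [List.length_replicate, hP]
      have hQm : Q ∈ tup (budget (List.replicate D ()) M) (prs (bM M) M.length)
          (List.replicate (2 ^ (t + 1)) ()) := by
        refine (tup_full _ _ (List.ne_nil_of_mem (zero_mem _ _)) _ ?_).2 Q ?_ hQ2
        · rw [budget_length, List.length_replicate, List.length_replicate, prs_length,
            mul_comm ((bM M).size + 2)]
          exact hD _ _
        · rw [List.length_replicate, hQ]
      have hmem : (x0, y0, lvl P + lvl Q) ∈ outT (List.replicate D ())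
          (List.replicate (2 ^ (t + 1)) ()) (List.replicate t ()) M := by
        refine mem_outT.2 ⟨P, hPm, Q, hQm, x0, hx0, y0, hy0, ?_, rfl⟩
        rw [feasB_eq, hzM, List.length_replicate, Bool.not_eq_true']
        exact hf
      exact (foldl_min_le (fun q : ℕ × ℕ × ℕ => q.1 * m + q.2.1 * n + q.2.2) _ _).2 _ hmem

end Pool.Agent.V11223.YD
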