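import Pool.Agent.V11223.YD.Dyn

/-!
# Profiles with few levels: upper and lower bound
-/

namespace Pool.Agent.V11223.YD

/-- The profile with base value `x0` and additional levels `P` (value, count). -/
def prof (x0 : ℕ) (P : List (ℕ × ℕ)) (j : ℕ) : ℕ :=
  x0 + ((P.filter fun p => decide (j < p.2)).map Prod.fst).sum

/-- the cost of the levels -/
def lvl (P : List (ℕ × ℕ)) : ℕ := (P.map fun p => p.1 * p.2).sum

theorem prof_antitone (x0 : ℕ) (P : List (ℕ × ℕ)) : Antitone (prof x0 P) := by
  intro j j' h
  unfold prof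
  refine Nat.add_le_add_left ?_ _
  induction P with
  | nil => simp
  | cons p P ih =>
    rw [List.filter_cons, List.filter_cons]
    by_cases h1 : j' < p.2
    · have h2 : j < p.2 := by omega
      rw [if_pos (by simpa using h1), if_pos (by simpa using h2)]
      simp only [List.map_cons, List.sum_cons]
      omega
    · rw [if_neg (by simpa using h1)]
      split_ifs
      · simp only [List.map_cons, List.sum_cons]
        omega
      · exact ih

theorem prof_ge (x0 : ℕ) (P : List (ℕ × ℕ)) (j : ℕ) : x0 ≤ prof x0 P j := Nat.le_add_right _ _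

theorem prof_dom (x0 : ℕ) {P P' : List (ℕ × ℕ)}
    (h : ∀ p ∈ P', ∃ q ∈ P, p.1 ≤ q.1 ∧ p.2 ≤ q.2) : Dom P' (prof x0 P) := by
  intro p hp j hj
  obtain ⟨q, hq, h1, h2⟩ := h p hp
  unfold prof
  have h3 : q.1 ≤ ((P.filter fun p => decide (j < p.2)).map Prod.fst).sum := by
    apply List.single_le_sum (fun _ _ => Nat.zero_le _)
    refine List.mem_map.2 ⟨q, ?_, rfl⟩
    rw [List.mem_filter]
    refine ⟨hq, ?_⟩
    simp only [decide_eq_true_eq]
    omega
  omega

theorem prof_base {x0 : ℕ} {P : List (ℕ × ℕ)} {b : ℕ} (hP : ∀ p ∈ P, p.2 ≤ b) {j : ℕ}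
    (hj : b ≤ j) : prof x0 P j = x0 := by
  unfold prof
  have : P.filter (fun p => decide (j < p.2)) = [] := by
    rw [List.filter_eq_nil_iff]
    intro p hp
    have := hP p hp
    simp only [decide_eq_true_eq]
    omega
  rw [this]
  simp

theorem prof_min {x0 : ℕ} {P : List (ℕ × ℕ)} {b : ℕ} (hP : ∀ p ∈ P, p.2 ≤ b) (j : ℕ) :
    prof x0 P (min j b) = prof x0 P j := by
  by_cases h : j ≤ b
  · rw [min_eq_left h]
  · rw [min_eq_right (by omega), prof_base hP (le_refl _), prof_base hP (by omega)]

theorem sum_prof_le (x0 m : ℕ) (P : List (ℕ × ℕ)) :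
    ∑ j ∈ Finset.range m, prof x0 P j ≤ x0 * m + lvl P := by
  unfold prof lvl
  rw [Finset.sum_add_distrib, Finset.sum_const, Finset.card_range, smul_eq_mul, mul_comm m x0]
  refine Nat.add_le_add_left ?_ _
  induction P with
  | nil => simp
  | cons p P ih =>
    have h1 : ∀ j, (((p :: P).filter fun p => decide (j < p.2)).map Prod.fst).sum =
        (if j < p.2 then p.1 else 0) + ((P.filter fun p => decide (j < p.2)).map Prod.fst).sum := by
      intro j
      rw [List.filter_cons]
      by_cases h : j < p.2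
      · rw [if_pos (by simpa using h), if_pos h, List.map_cons, List.sum_cons]
      · rw [if_neg (by simpa using h), if_neg h, Nat.zero_add]
    simp_rw [h1]
    rw [Finset.sum_add_distrib, List.map_cons, List.sum_cons]
    refine Nat.add_le_add ?_ ih
    rw [← Finset.sum_filter, Finset.sum_const, smul_eq_mul, mul_comm]
    refine Nat.mul_le_mul_left _ ?_
    have : (Finset.range m).filter (fun j => j < p.2) ⊆ Finset.range p.2 := by
      intro j hj
      rw [Finset.mem_filter] at hj
      exact Finset.mem_range.2 hj.2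
    simpa using Finset.card_le_card this

theorem init_mem {G : Finset ℕ} (hG : ∀ i ∈ G, ∀ i' ≤ i, i' ∈ G) {i : ℕ} (hi : i < G.card) :
    i ∈ G := by
  by_contra hcon
  have : G ⊆ Finset.range i := by
    intro x hx
    rw [Finset.mem_range]
    by_contra hxi
    exact hcon (hG x hx i (by omega))
  have := Finset.card_le_card this
  rw [Finset.card_range] at this
  omega

/-- The number of points on a line after one step. -/
theorem line_card {n a rj : ℕ} (han : a ≤ n) (q : ℕ → Bool)
    (hq : ∀ i i', i' ≤ i → q i = false → q i' = false) :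
    min n (rj + ((Finset.range (a + 1)).filter fun i => q i = false).card) ≤
      ((Finset.range n).filter fun i => n ≤ i + rj ∨ q (min i a) = false).card := by
  set G := (Finset.range (a + 1)).filter fun i => q i = false with hG
  by_cases h : q a = false
  · have : (Finset.range n).filter (fun i => n ≤ i + rj ∨ q (min i a) = false) =
        Finset.range n := by
      rw [Finset.filter_eq_self]
      intro i _
      exact Or.inr (hq a _ (min_le_right _ _) h)
    rw [this, Finset.card_range]
    exact min_le_left _ _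
  · have hGd : ∀ i ∈ G, ∀ i' ≤ i, i' ∈ G := by
      intro i hi i' hi'
      rw [hG, Finset.mem_filter, Finset.mem_range] at hi ⊢
      exact ⟨by omega, hq i i' hi' hi.2⟩
    have hsub : Finset.range n \ Finset.Ico G.card (n - rj) ⊆
        (Finset.range n).filter fun i => n ≤ i + rj ∨ q (min i a) = false := by
      intro i hi
      rw [Finset.mem_sdiff, Finset.mem_range, Finset.mem_Ico] at hi
      rw [Finset.mem_filter, Finset.mem_range]
      refine ⟨hi.1, ?_⟩
      by_cases hi2 : i < G.card
      · right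
        have h1 := init_mem hGd hi2
        rw [hG, Finset.mem_filter, Finset.mem_range] at h1
        rw [min_eq_left (by omega)]
        exact h1.2
      · left
        omega
    have h1 := Finset.card_le_card hsub
    have h2 := Finset.le_card_sdiff (Finset.Ico G.card (n - rj)) (Finset.range n)
    rw [Finset.card_range, Nat.card_Ico] at h2
    omega

theorem filter_le_rc {A : Finset (ℕ × ℕ)} {n j : ℕ} {p : ℕ → Prop} [DecidablePred p]
    (h : ∀ i < n, p i → (i, j) ∈ A) : ((Finset.range n).filter p).card ≤ rc A j := by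
  unfold rc
  rw [← Finset.card_image_of_injective (f := fun i => (i, j)) _
    (fun x y hxy => (Prod.ext_iff.1 hxy).1)]
  refine Finset.card_le_card fun v hv => ?_
  rw [Finset.mem_image] at hv
  obtain ⟨i, hi, rfl⟩ := hv
  rw [Finset.mem_filter, Finset.mem_range] at hi
  rw [Finset.mem_filter]
  exact ⟨h i hi.1 hi.2, rfl⟩

theorem filter_le_cc {A : Finset (ℕ × ℕ)} {m i : ℕ} {p : ℕ → Prop} [DecidablePred p]
    (h : ∀ j < m, p j → (i, j) ∈ A) : ((Finset.range m).filter p).card ≤ cc A i := by
  unfold cc
  rw [← Finset.card_image_of_injective (f := fun j => (i, j)) _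
    (fun x y hxy => (Prod.ext_iff.1 hxy).2)]
  refine Finset.card_le_card fun v hv => ?_
  rw [Finset.mem_image] at hv
  obtain ⟨j, hj, rfl⟩ := hv
  rw [Finset.mem_filter, Finset.mem_range] at hj
  rw [Finset.mem_filter]
  exact ⟨h j hj.1 hj.2, rfl⟩

/-- The set with the given profiles. -/
def setOf (m n : ℕ) (r c : ℕ → ℕ) : Finset (ℕ × ℕ) :=
  (Rect n m).filter fun v => n ≤ v.1 + r v.2 ∨ m ≤ v.2 + c v.1

theorem card_setOf (m n : ℕ) (r c : ℕ → ℕ) :
    (setOf m n r c).card ≤ ∑ j ∈ Finset.range m, r j + ∑ i ∈ Finset.range n, c i := by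
  have hsub1 : (Rect n m).filter (fun v => n ≤ v.1 + r v.2) ⊆ Rect n m := Finset.filter_subset _ _
  have hsub2 : (Rect n m).filter (fun v => m ≤ v.2 + c v.1) ⊆ Rect n m := Finset.filter_subset _ _
  have h1 : (setOf m n r c).card ≤ ((Rect n m).filter (fun v => n ≤ v.1 + r v.2)).card +
      ((Rect n m).filter (fun v => m ≤ v.2 + c v.1)).card := by
    unfold setOf
    rw [Finset.filter_or]
    exact Finset.card_union_le _ _
  refine h1.trans (Nat.add_le_add ?_ ?_)
  · rw [← sum_rc hsub1]
    refine Finset.sum_le_sum fun j hj => ?_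
    unfold rc
    have : ((Rect n m).filter (fun v => n ≤ v.1 + r v.2)).filter (fun u => u.2 = j) ⊆
        (Finset.Ico (n - r j) n).image fun i => (i, j) := by
      intro v hv
      rw [Finset.mem_filter, Finset.mem_filter, mem_Rect] at hv
      rw [Finset.mem_image]
      obtain ⟨⟨⟨h2, h3⟩, h4⟩, rfl⟩ := hv
      exact ⟨v.1, by rw [Finset.mem_Ico]; omega, rfl⟩
    refine (Finset.card_le_card this).trans (Finset.card_image_le.trans ?_)
    rw [Nat.card_Ico]
    omega
  · rw [← sum_cc hsub2]
    refine Finset.sum_le_sum fun i hi => ?_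
    unfold cc
    have : ((Rect n m).filter (fun v => m ≤ v.2 + c v.1)).filter (fun u => u.1 = i) ⊆
        (Finset.Ico (m - c i) m).image fun j => (i, j) := by
      intro v hv
      rw [Finset.mem_filter, Finset.mem_filter, mem_Rect] at hv
      rw [Finset.mem_image]
      obtain ⟨⟨⟨h2, h3⟩, h4⟩, rfl⟩ := hv
      exact ⟨v.2, by rw [Finset.mem_Ico]; omega, rfl⟩
    refine (Finset.card_le_card this).trans (Finset.card_image_le.trans ?_)
    rw [Nat.card_Ico]
    omega

section
variable {Z : Finset (ℕ × ℕ)} {a b m n : ℕ}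

/-- the real dynamics dominates the dynamics of the profiles in the small rectangle -/
theorem real_ge (hZ : IsZero Z) (hZab : Z ⊆ Rect a b) (ha : a ≤ n) (hb : b ≤ m) {x0 y0 : ℕ}
    {P Q : List (ℕ × ℕ)} (hP : ∀ p ∈ P, p.2 ≤ b) (hQ : ∀ p ∈ Q, p.2 ≤ a) (t : ℕ) :
    let A := setOf m n (prof x0 P) (prof y0 Q)
    let s := udyn (zf Z) (b + 1) (a + 1) (prof x0 P) (prof y0 Q) t
    A ⊆ (stepT Z m n)^[t] A ∧
    (∀ j < m, min n (s.1 (min j b)) ≤ rc ((stepT Z m n)^[t] A) j) ∧
    (∀ i < n, min m (s.2 (min i a)) ≤ cc ((stepT Z m n)^[t] A) i) ∧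
    ∀ v ∈ Rect n m, zf Z (s.1 (min v.2 b)) (s.2 (min v.1 a)) = false →
      v ∈ (stepT Z m n)^[t + 1] A := by
  intro A
  have hz := zf_dn hZ
  induction t with
  | zero =>
    intro s
    have hr : ∀ j < m, min n (s.1 (min j b)) ≤ rc A j := by
      intro j hj
      have h1 : s.1 (min j b) = prof x0 P j := prof_min hP j
      rw [h1]
      have h2 := filter_le_rc (A := A) (n := n) (j := j) (p := fun i => n ≤ i + prof x0 P j)
        (fun i hi h => by
          show (i, j) ∈ setOf m n _ _
          unfold setOf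
          rw [Finset.mem_filter, mem_Rect]
          exact ⟨⟨hi, hj⟩, Or.inl h⟩)
      refine le_trans ?_ h2
      have h3 : Finset.Ico (n - prof x0 P j) n ⊆
          (Finset.range n).filter fun i => n ≤ i + prof x0 P j := by
        intro i hi
        rw [Finset.mem_Ico] at hi
        rw [Finset.mem_filter, Finset.mem_range]
        omega
      have h4 := Finset.card_le_card h3
      rw [Nat.card_Ico] at h4
      omega
    have hc : ∀ i < n, min m (s.2 (min i a)) ≤ cc A i := by
      intro i hi
      have h1 : s.2 (min i a) = prof y0 Q i := prof_min hQ i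
      rw [h1]
      have h2 := filter_le_cc (A := A) (m := m) (i := i) (p := fun j => m ≤ j + prof y0 Q i)
        (fun j hj h => by
          show (i, j) ∈ setOf m n _ _
          unfold setOf
          rw [Finset.mem_filter, mem_Rect]
          exact ⟨⟨hi, hj⟩, Or.inr h⟩)
      refine le_trans ?_ h2
      have h3 : Finset.Ico (m - prof y0 Q i) m ⊆
          (Finset.range m).filter fun j => m ≤ j + prof y0 Q i := by
        intro i hi
        rw [Finset.mem_Ico] at hi
        rw [Finset.mem_filter, Finset.mem_range]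
        omega
      have h4 := Finset.card_le_card h3
      rw [Nat.card_Ico] at h4
      omega
    refine ⟨subset_refl _, hr, hc, ?_⟩
    intro v hv h
    rw [Function.iterate_succ_apply']
    exact mem_step hZ hZab ha hb hv (hr v.2 (mem_Rect.1 hv).2) (hc v.1 (mem_Rect.1 hv).1) h
  | succ t ih =>
    intro s
    set s' := udyn (zf Z) (b + 1) (a + 1) (prof x0 P) (prof y0 Q) t with hs'
    obtain ⟨h1, h2, h3, h4⟩ := ih
    have hanti := udyn_antitone (m := b + 1) (n := a + 1) hz (prof_antitone x0 P)
      (prof_antitone y0 Q) t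
    have hsub : A ⊆ (stepT Z m n)^[t + 1] A := by
      rw [Function.iterate_succ_apply']
      exact h1.trans (Finset.subset_union_left)
    have hr : ∀ j < m, min n (s.1 (min j b)) ≤ rc ((stepT Z m n)^[t + 1] A) j := by
      intro j hj
      have e1 : s.1 (min j b) = prof x0 P (min j b) + ((Finset.range (a + 1)).filter fun i =>
        zf Z (s'.1 (min j b)) (s'.2 i) = false).card := rfl
      rw [e1, prof_min hP]
      refine (line_card ha (fun i => zf Z (s'.1 (min j b)) (s'.2 i)) ?_).trans ?_
      · intro i i' hii h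
        exact hz.up h (le_refl _) (hanti.2 hii)
      · refine filter_le_rc fun i hi h => ?_
        rcases h with h | h
        · refine hsub ?_
          show (i, j) ∈ setOf m n _ _
          unfold setOf
          rw [Finset.mem_filter, mem_Rect]
          exact ⟨⟨hi, hj⟩, Or.inl h⟩
        · exact h4 (i, j) (mem_Rect.2 ⟨hi, hj⟩) h
    have hc : ∀ i < n, min m (s.2 (min i a)) ≤ cc ((stepT Z m n)^[t + 1] A) i := by
      intro i hi
      have e1 : s.2 (min i a) = prof y0 Q (min i a) + ((Finset.range (b + 1)).filter fun j =>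
        zf Z (s'.1 j) (s'.2 (min i a)) = false).card := rfl
      rw [e1, prof_min hQ]
      refine (line_card hb (fun j => zf Z (s'.1 j) (s'.2 (min i a))) ?_).trans ?_
      · intro j j' hjj h
        exact hz.up h (hanti.1 hjj) (le_refl _)
      · refine filter_le_cc fun j hj h => ?_
        rcases h with h | h
        · refine hsub ?_
          show (i, j) ∈ setOf m n _ _
          unfold setOf
          rw [Finset.mem_filter, mem_Rect]
          exact ⟨⟨hi, hj⟩, Or.inr h⟩
        · exact h4 (i, j) (mem_Rect.2 ⟨hi, hj⟩) h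
    refine ⟨hsub, hr, hc, ?_⟩
    intro v hv h
    rw [Function.iterate_succ_apply']
    exact mem_step hZ hZab ha hb hv (hr v.2 (mem_Rect.1 hv).2) (hc v.1 (mem_Rect.1 hv).1) h
where
  mem_step (hZ : IsZero Z) (hZab : Z ⊆ Rect a b) (ha : a ≤ n) (hb : b ≤ m) {B : Finset (ℕ × ℕ)}
      {v : ℕ × ℕ} (hv : v ∈ Rect n m) {x y : ℕ} (hx : min n x ≤ rc B v.2)
      (hy : min m y ≤ cc B v.1) (h : zf Z x y = false) : v ∈ stepT Z m n B := by
    unfold stepT
    rw [Finset.mem_union, Finset.mem_filter]
    by_cases hvB : v ∈ B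
    · exact Or.inl hvB
    · refine Or.inr ⟨hv, hvB, ?_⟩
      rw [rowN_eq hvB, colN_eq hvB]
      intro hmem
      have h1 := mem_Rect.1 (hZab hmem)
      simp only at h1
      have h2 : zf Z (rc B v.2) (cc B v.1) = true := by
        unfold zf
        simpa using hmem
      have h3 := zf_dn hZ _ _ x y h2 (by omega) (by omega)
      rw [h] at h3
      exact absurd h3 (by simp)

theorem gam_le {L : ℕ} {A : Finset (ℕ × ℕ)} (hA : A ⊆ Rect n m)
    (h : (stepT Z m n)^[L] A = Rect n m) : gam L Z m n ≤ A.card :=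
  Nat.sInf_le ⟨A, hA, h, rfl⟩

theorem stepT_subset {A : Finset (ℕ × ℕ)} (hA : A ⊆ Rect n m) (t : ℕ) :
    (stepT Z m n)^[t] A ⊆ Rect n m := by
  induction t with
  | zero => exact hA
  | succ t ih =>
    rw [Function.iterate_succ_apply']
    exact Finset.union_subset ih (Finset.filter_subset _ _)

/-- **Upper bound.** -/
theorem gam_le_of_feasible (hZ : IsZero Z) (hZab : Z ⊆ Rect a b) (ha : a ≤ n) (hb : b ≤ m)
    {x0 y0 : ℕ} {P Q : List (ℕ × ℕ)} (hP : ∀ p ∈ P, p.2 ≤ b) (hQ : ∀ p ∈ Q, p.2 ≤ a) {t : ℕ}
    (h : zf Z ((udyn (zf Z) (b + 1) (a + 1) (prof x0 P) (prof y0 Q) t).1 b)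
      ((udyn (zf Z) (b + 1) (a + 1) (prof x0 P) (prof y0 Q) t).2 a) = false) :
    gam (t + 1) Z m n ≤ x0 * m + y0 * n + (lvl P + lvl Q) := by
  have hz := zf_dn hZ
  obtain ⟨-, -, -, h4⟩ := real_ge hZ hZab ha hb (x0 := x0) (y0 := y0) hP hQ t
  have hanti := udyn_antitone (m := b + 1) (n := a + 1) hz (prof_antitone x0 P)
    (prof_antitone y0 Q) t
  have hA : setOf m n (prof x0 P) (prof y0 Q) ⊆ Rect n m := Finset.filter_subset _ _
  have hfull : (stepT Z m n)^[t + 1] (setOf m n (prof x0 P) (prof y0 Q)) = Rect n m := by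
    refine subset_antisymm (stepT_subset hA _) fun v hv => ?_
    refine h4 v hv (hz.up h (hanti.1 (min_le_right _ _)) (hanti.2 (min_le_right _ _)))
  refine (gam_le hA hfull).trans ((card_setOf _ _ _ _).trans ?_)
  have h5 := sum_prof_le x0 m P
  have h6 := sum_prof_le y0 n Q
  omega

/-! ### Rounding -/

/-- rounding up to a power of two -/
def up (v : ℕ) : ℕ := if v = 0 then 0 else 2 ^ v.size

theorem le_up (v : ℕ) : v ≤ up v := by
  unfold up
  split_ifs with h
  · omega
  · exact (Nat.lt_size_self v).le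

theorem up_le (v : ℕ) : up v ≤ 2 * v := by
  unfold up
  split_ifs with h
  · omega
  · have h1 : 0 < v.size := Nat.size_pos.2 (by omega)
    have h2 : 2 ^ (v.size - 1) ≤ v := by
      rw [← Nat.lt_size]
      omega
    have h3 : 2 ^ v.size = 2 * 2 ^ (v.size - 1) := by
      rw [← pow_succ']
      congr 1
      omega
    omega

/-- zero and the powers of two up to about `2 a` -/
def pw2 (a : ℕ) : List ℕ := 0 :: (List.range (a.size + 1)).map fun p => 2 ^ p

theorem up_mem {v a : ℕ} (h : v ≤ a) : up v ∈ pw2 a := by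
  unfold up pw2
  split_ifs with h0
  · simp
  · rw [List.mem_cons, List.mem_map]
    refine Or.inr ⟨v.size, ?_, rfl⟩
    rw [List.mem_range]
    have := Nat.size_le_size h
    omega

/-- possible levels for the rows: values up to about `2 a`, counts at most `b` -/
def prs (a b : ℕ) : List (ℕ × ℕ) := (pw2 a).flatMap fun u => (pw2 b).map fun M => (u, min M b)

/-- rounding of a level -/
def upP (b : ℕ) (p : ℕ × ℕ) : ℕ × ℕ := (up p.1, min (up p.2) b)

theorem upP_mem {a b : ℕ} {p : ℕ × ℕ} (h1 : p.1 ≤ a) (h2 : p.2 ≤ b) : upP b p ∈ prs a b := by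
  unfold prs upP
  rw [List.mem_flatMap]
  exact ⟨up p.1, up_mem h1, List.mem_map.2 ⟨up p.2, up_mem h2, rfl⟩⟩

theorem zero_mem (a b : ℕ) : ((0, 0) : ℕ × ℕ) ∈ prs a b := by
  have := upP_mem (a := a) (b := b) (p := (0, 0)) (Nat.zero_le _) (Nat.zero_le _)
  simpa [upP, up] using this

theorem prs_count {a b : ℕ} {p : ℕ × ℕ} (h : p ∈ prs a b) : p.2 ≤ b := by
  unfold prs at h
  rw [List.mem_flatMap] at h
  obtain ⟨u, _, h⟩ := h
  obtain ⟨M, _, rfl⟩ := List.mem_map.1 h
  exact min_le_right _ _

/-- rounded levels, padded to length `K` -/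
def rnd (K b : ℕ) (P : List (ℕ × ℕ)) : List (ℕ × ℕ) :=
  P.map (upP b) ++ List.replicate (K - P.length) (0, 0)

theorem lvl_rnd {K b S : ℕ} {P : List (ℕ × ℕ)} (hP : ∀ p ∈ P, p.1 * p.2 ≤ S) :
    lvl (rnd K b P) ≤ P.length * (4 * S) := by
  unfold lvl rnd
  rw [List.map_append, List.sum_append]
  have h0 : ((List.replicate (K - P.length) ((0, 0) : ℕ × ℕ)).map fun p => p.1 * p.2).sum = 0 := by
    simp
  rw [h0, Nat.add_zero]
  induction P with
  | nil => simp
  | cons p P ih =>
    rw [List.map_cons, List.map_cons, List.sum_cons, List.length_cons, Nat.add_mul, one_mul,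
      Nat.add_comm]
    refine Nat.add_le_add (ih (fun q hq => hP q (List.mem_cons_of_mem _ hq)) (by simp)) ?_
    have h1 := hP p (by simp)
    calc (upP b p).1 * (upP b p).2 ≤ (2 * p.1) * (2 * p.2) :=
          Nat.mul_le_mul (up_le _) ((min_le_left _ _).trans (up_le _))
      _ = 4 * (p.1 * p.2) := by ring
      _ ≤ 4 * S := Nat.mul_le_mul_left _ h1

theorem rnd_dom {K b : ℕ} {P P' : List (ℕ × ℕ)} (hP : ∀ p ∈ P', p ∈ P) (hb : ∀ p ∈ P, p.2 ≤ b) :
    ∀ p ∈ P', ∃ q ∈ rnd K b P, p.1 ≤ q.1 ∧ p.2 ≤ q.2 := by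
  intro p hp
  refine ⟨upP b p, List.mem_append_left _ (List.mem_map.2 ⟨p, hP p hp, rfl⟩), le_up _, ?_⟩
  exact le_min (le_up _) (hb p (hP p hp))

/-- **Lower bound**: some rounded profile with few levels is feasible and cheap. -/
theorem exists_feasible (hZ : IsZero Z) (hZab : Z ⊆ Rect a b) (ha : a ≤ n) (hb : b ≤ m) (t : ℕ)
    {A : Finset (ℕ × ℕ)} (hA : A ⊆ Rect n m) (hfull : (stepT Z m n)^[t + 1] A = Rect n m) :
    ∃ x0 ∈ pw2 a, ∃ y0 ∈ pw2 b, ∃ P Q : List (ℕ × ℕ), P.length = 2 ^ (t + 1) ∧
      Q.length = 2 ^ (t + 1) ∧ (∀ p ∈ P, p ∈ prs a b) ∧ (∀ p ∈ Q, p ∈ prs b a) ∧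
      zf Z ((udyn (zf Z) (b + 1) (a + 1) (prof x0 P) (prof y0 Q) t).1 b)
        ((udyn (zf Z) (b + 1) (a + 1) (prof x0 P) (prof y0 Q) t).2 a) = false ∧
      x0 * m + y0 * n + (lvl P + lvl Q) ≤ (6 + 8 * 2 ^ (t + 1)) * A.card := by
  have hz := zf_dn hZ
  have hza : ∀ x y, zf Z x y = true → x < a := by
    intro x y h
    unfold zf at h
    simp only [decide_eq_true_eq] at h
    exact (mem_Rect.1 (hZab h)).1
  have hzb : ∀ x y, zf Z x y = true → y < b := by
    intro x y h
    unfold zf at h
    simp only [decide_eq_true_eq] at h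
    exact (mem_Rect.1 (hZab h)).2
  set K := 2 ^ (t + 1) with hK
  have h0len : (List.replicate K ((0, 0) : ℕ × ℕ)).length = K := List.length_replicate
  have h0mem : ∀ a b : ℕ, ∀ p ∈ List.replicate K ((0, 0) : ℕ × ℕ), p ∈ prs a b := by
    intro a b p hp
    rw [List.mem_replicate] at hp
    rw [hp.2]
    exact zero_mem a b
  have h0lvl : lvl (List.replicate K ((0, 0) : ℕ × ℕ)) = 0 := by simp [lvl]
  by_cases h00 : zf Z 0 0 = false
  · -- empty zero-set
    refine ⟨0, by simp [pw2], 0, by simp [pw2], List.replicate K (0, 0), List.replicate K (0, 0),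
      h0len, h0len, h0mem a b, h0mem b a, hz.up h00 (Nat.zero_le _) (Nat.zero_le _), ?_⟩
    rw [h0lvl]
    simp
  · rw [Bool.not_eq_false] at h00
    have ha0 : 0 < a := hza _ _ h00
    have hb0 : 0 < b := hzb _ _ h00
    set r := rc A with hr
    set c := cc A with hc
    have hrS : ∑ j ∈ Finset.range m, r j = A.card := sum_rc hA
    have hcS : ∑ i ∈ Finset.range n, c i = A.card := sum_cc hA
    obtain ⟨j₀, hj₀, hmin⟩ := Finset.exists_min_image (Finset.range m) r
      ⟨0, Finset.mem_range.2 (by omega)⟩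
    have hmx : r j₀ * m ≤ A.card := by
      calc r j₀ * m = ∑ _j ∈ Finset.range m, r j₀ := by
            rw [Finset.sum_const, smul_eq_mul, Finset.card_range, mul_comm]
        _ ≤ ∑ j ∈ Finset.range m, r j := Finset.sum_le_sum fun j hj => hmin j hj
        _ = A.card := hrS
    by_cases hcase : a ≤ 2 * r j₀
    · -- many points in every row
      refine ⟨up a, up_mem (le_refl _), 0, by simp [pw2], List.replicate K (0, 0),
        List.replicate K (0, 0), h0len, h0len, h0mem a b, h0mem b a, ?_, ?_⟩
      · by_contra hcon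
        rw [Bool.not_eq_false] at hcon
        have h1 := hza _ _ hcon
        have h2 := (udyn_ge (z := zf Z) (m := b + 1) (n := a + 1)
          (r := prof (up a) (List.replicate K (0, 0)))
          (c := prof 0 (List.replicate K (0, 0))) t).1 b
        have h3 := prof_ge (up a) (List.replicate K (0, 0)) b
        have h4 := le_up a
        omega
      · rw [h0lvl]
        have h1 := up_le a
        have h2 : up a * m ≤ 4 * A.card := by
          calc up a * m ≤ (4 * r j₀) * m := Nat.mul_le_mul_right _ (by omega)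
            _ = 4 * (r j₀ * m) := by ring
            _ ≤ 4 * A.card := Nat.mul_le_mul_left _ hmx
        have h3 : (6 + 8 * K) * A.card = 6 * A.card + 8 * K * A.card := by ring
        omega
    · push Not at hcase
      obtain ⟨-, -, hreal, -⟩ := real_le hZ hA (t + 1)
      have h1 := hreal j₀
      rw [hfull, rc_Rect (Finset.mem_range.1 hj₀)] at h1
      set u := udyn (zf Z) m n r c t with hu
      set I := (Finset.range n).filter fun i => zf Z (u.1 j₀) (u.2 i) = false with hI
      have h2 : n ≤ r j₀ + I.card := h1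
      have hIne : I.Nonempty := by
        rw [← Finset.card_pos]
        omega
      obtain ⟨i₀, hi₀, hmin2⟩ := Finset.exists_min_image I c hIne
      have hcost : c i₀ * I.card ≤ A.card := by
        calc c i₀ * I.card = ∑ _i ∈ I, c i₀ := by
              rw [Finset.sum_const, smul_eq_mul, mul_comm]
          _ ≤ ∑ i ∈ I, c i := Finset.sum_le_sum fun i hi => hmin2 i hi
          _ ≤ ∑ i ∈ Finset.range n, c i :=
              Finset.sum_le_sum_of_subset (Finset.filter_subset _ _)
          _ = A.card := hcS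
      rw [hI, Finset.mem_filter, Finset.mem_range] at hi₀
      obtain ⟨P1, Q1, p1, p2, p3, p4, p5⟩ := demand t hz hza hzb hrS.le hcS.le j₀
        (Finset.mem_range.1 hj₀)
      have hz' : Dn fun x y => zf Z y x := fun x y x' y' h hx hy => hz _ _ _ _ h hy hx
      obtain ⟨Q2, P2, g1, g2, g3, g4, g5⟩ := demand t (z := fun x y => zf Z y x) (a := b) (b := a)
        hz' (fun x y h => hzb _ _ h) (fun x y h => hza _ _ h) hcS.le hrS.le i₀ hi₀.1
      have hPb : ∀ p ∈ P1 ++ P2, p.1 ≤ a ∧ p.2 ≤ b ∧ p.1 * p.2 ≤ A.card := by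
        intro p hp
        rcases List.mem_append.1 hp with hp | hp
        · exact p3 p hp
        · exact g4 p hp
      have hQb : ∀ p ∈ Q1 ++ Q2, p.1 ≤ b ∧ p.2 ≤ a ∧ p.1 * p.2 ≤ A.card := by
        intro p hp
        rcases List.mem_append.1 hp with hp | hp
        · exact p4 p hp
        · exact g3 p hp
      have hPl : (P1 ++ P2).length ≤ K := by
        rw [List.length_append, hK, pow_succ]; omega
      have hQl : (Q1 ++ Q2).length ≤ K := by
        rw [List.length_append, hK, pow_succ]; omega
      have hmem : ∀ (a b : ℕ) (P : List (ℕ × ℕ)), (∀ p ∈ P, p.1 ≤ a ∧ p.2 ≤ b ∧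
          p.1 * p.2 ≤ A.card) → ∀ p ∈ rnd K b P, p ∈ prs a b := by
        intro a b P hP p hp
        unfold rnd at hp
        rcases List.mem_append.1 hp with hp | hp
        · obtain ⟨q, hq, rfl⟩ := List.mem_map.1 hp
          exact upP_mem (hP q hq).1 (hP q hq).2.1
        · rw [List.mem_replicate] at hp
          rw [hp.2]
          exact zero_mem a b
      refine ⟨up (min a (r j₀)), up_mem (min_le_left _ _), up (min b (c i₀)),
        up_mem (min_le_left _ _), rnd K b (P1 ++ P2), rnd K a (Q1 ++ Q2), ?_, ?_,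
        hmem a b _ hPb, hmem b a _ hQb, ?_, ?_⟩
      · unfold rnd
        rw [List.length_append, List.length_map, List.length_replicate]
        omega
      · unfold rnd
        rw [List.length_append, List.length_map, List.length_replicate]
        omega
      · set r' := prof (up (min a (r j₀))) (rnd K b (P1 ++ P2)) with hr'
        set c' := prof (up (min b (c i₀))) (rnd K a (Q1 ++ Q2)) with hc'
        have d1 : Dom P1 r' := prof_dom _ (rnd_dom (fun p hp => List.mem_append_left _ hp)
          fun p hp => (hPb p hp).2.1)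
        have d2 : Dom P2 r' := prof_dom _ (rnd_dom (fun p hp => List.mem_append_right _ hp)
          fun p hp => (hPb p hp).2.1)
        have d3 : Dom Q1 c' := prof_dom _ (rnd_dom (fun p hp => List.mem_append_left _ hp)
          fun p hp => (hQb p hp).2.1)
        have d4 : Dom Q2 c' := prof_dom _ (rnd_dom (fun p hp => List.mem_append_right _ hp)
          fun p hp => (hQb p hp).2.1)
        have e1 := p5 r' c' d1 d3 b ((le_up _).trans (prof_ge _ _ _))
        have e2 := g5 c' r' d4 d2 a ((le_up _).trans (prof_ge _ _ _))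
        rw [udyn_swap (zf Z) m n r c t, udyn_swap (zf Z) (b + 1) (a + 1) r' c' t] at e2
        have e3 : zf Z (min a (u.1 j₀)) (min b (u.2 i₀)) = false := by
          by_contra hcon
          rw [Bool.not_eq_false] at hcon
          have h3 := hza _ _ hcon
          have h4 := hzb _ _ hcon
          rw [min_eq_right (by omega), min_eq_right (by omega), hi₀.2] at hcon
          exact absurd hcon (by simp)
        exact hz.up e3 e1 e2
      · have l1 := lvl_rnd (K := K) (b := b) (S := A.card) fun p hp => (hPb p hp).2.2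
        have l2 := lvl_rnd (K := K) (b := a) (S := A.card) fun p hp => (hQb p hp).2.2
        have l3 : (P1 ++ P2).length * (4 * A.card) ≤ K * (4 * A.card) :=
          Nat.mul_le_mul_right _ hPl
        have l4 : (Q1 ++ Q2).length * (4 * A.card) ≤ K * (4 * A.card) :=
          Nat.mul_le_mul_right _ hQl
        have l5 : up (min a (r j₀)) * m ≤ 2 * A.card := by
          calc up (min a (r j₀)) * m ≤ (2 * r j₀) * m :=
                Nat.mul_le_mul_right _ ((up_le _).trans (Nat.mul_le_mul_left _ (min_le_right _ _)))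
            _ = 2 * (r j₀ * m) := by ring
            _ ≤ 2 * A.card := Nat.mul_le_mul_left _ hmx
        have l6 : up (min b (c i₀)) * n ≤ 4 * A.card := by
          calc up (min b (c i₀)) * n ≤ (2 * c i₀) * (2 * I.card) :=
                Nat.mul_le_mul ((up_le _).trans (Nat.mul_le_mul_left _ (min_le_right _ _)))
                  (by omega)
            _ = 4 * (c i₀ * I.card) := by ring
            _ ≤ 4 * A.card := Nat.mul_le_mul_left _ hcost
        have l7 : (6 + 8 * K) * A.card = 6 * A.card + 2 * (K * (4 * A.card)) := by ring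
        omega

end

end Pool.Agent.V11223.YD
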