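import Mathlib

/-!
# Young domination on Hamming rectangles: definitions
-/

namespace Pool.Agent.V11223.YD

/-- The rectangle `[0, a-1] × [0, b-1]`. -/
def Rect (a b : ℕ) : Finset (ℕ × ℕ) := Finset.range a ×ˢ Finset.range b

/-- A zero-set is downward closed. -/
def IsZero (Z : Finset (ℕ × ℕ)) : Prop :=
  ∀ x y x' y' : ℕ, (x, y) ∈ Z → x' ≤ x → y' ≤ y → (x', y') ∈ Z

/-- The number of elements of `A` in the row neighbourhood of `v`. -/
def rowN (A : Finset (ℕ × ℕ)) (v : ℕ × ℕ) : ℕ := (A.filter fun u => u ≠ v ∧ u.2 = v.2).card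

/-- The number of elements of `A` in the column neighbourhood of `v`. -/
def colN (A : Finset (ℕ × ℕ)) (v : ℕ × ℕ) : ℕ := (A.filter fun u => u ≠ v ∧ u.1 = v.1).card

/-- The map `T` on the vertex sets of the Hamming rectangle with vertex set `R_{n,m}`. -/
def stepT (Z : Finset (ℕ × ℕ)) (m n : ℕ) (A : Finset (ℕ × ℕ)) : Finset (ℕ × ℕ) :=
  A ∪ (Rect n m).filter fun v => v ∉ A ∧ (rowN A v, colN A v) ∉ Z

/-- The Young domination number with latency `L`. -/
noncomputable def gam (L : ℕ) (Z : Finset (ℕ × ℕ)) (m n : ℕ) : ℕ :=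
  sInf {k | ∃ A ⊆ Rect n m, (stepT Z m n)^[L] A = Rect n m ∧ A.card = k}

end Pool.Agent.V11223.YD
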