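import Pool.Agent.V11223.YD.Defs

/-!
# The dynamics of the line counts
-/

namespace Pool.Agent.V11223.YD

/-- The dynamics of upper bounds for the line counts: `r j` is the initial number of points in row
`j < m` and `c i` the initial number of points in column `i < n`. -/
def udyn (z : ℕ → ℕ → Bool) (m n : ℕ) (r c : ℕ → ℕ) : ℕ → (ℕ → ℕ) × (ℕ → ℕ)
  | 0 => (r, c)
  | t + 1 =>
    (fun j => r j + ((Finset.range n).filter fun i =>
        z ((udyn z m n r c t).1 j) ((udyn z m n r c t).2 i) = false).card,
      fun i => c i + ((Finset.range m).filter fun j =>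
        z ((udyn z m n r c t).1 j) ((udyn z m n r c t).2 i) = false).card)

/-- downward closed -/
def Dn (z : ℕ → ℕ → Bool) : Prop :=
  ∀ x y x' y' : ℕ, z x y = true → x' ≤ x → y' ≤ y → z x' y' = true

theorem Dn.up {z : ℕ → ℕ → Bool} (hz : Dn z) {x y x' y' : ℕ} (h : z x y = false) (hx : x ≤ x')
    (hy : y ≤ y') : z x' y' = false := by
  by_contra hcon
  rw [Bool.not_eq_false] at hcon
  have := hz _ _ _ _ hcon hx hy
  rw [h] at this
  exact absurd this (by simp)

section
variable {z : ℕ → ℕ → Bool} {m n : ℕ} {r c : ℕ → ℕ}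

theorem udyn_ge (t : ℕ) : (∀ j, r j ≤ (udyn z m n r c t).1 j) ∧
    ∀ i, c i ≤ (udyn z m n r c t).2 i := by
  cases t with
  | zero => exact ⟨fun _ => le_refl _, fun _ => le_refl _⟩
  | succ t => exact ⟨fun _ => Nat.le_add_right _ _, fun _ => Nat.le_add_right _ _⟩

theorem udyn_mono (hz : Dn z) (t : ℕ) :
    (∀ j, (udyn z m n r c t).1 j ≤ (udyn z m n r c (t + 1)).1 j) ∧
    ∀ i, (udyn z m n r c t).2 i ≤ (udyn z m n r c (t + 1)).2 i := by
  induction t with
  | zero => exact ⟨fun _ => Nat.le_add_right _ _, fun _ => Nat.le_add_right _ _⟩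
  | succ t ih =>
    constructor
    · intro j
      refine Nat.add_le_add_left (Finset.card_le_card fun i hi => ?_) _
      rw [Finset.mem_filter] at hi ⊢
      exact ⟨hi.1, hz.up hi.2 (ih.1 j) (ih.2 i)⟩
    · intro i
      refine Nat.add_le_add_left (Finset.card_le_card fun j hj => ?_) _
      rw [Finset.mem_filter] at hj ⊢
      exact ⟨hj.1, hz.up hj.2 (ih.1 j) (ih.2 i)⟩

theorem udyn_antitone (hz : Dn z) (hr : Antitone r) (hc : Antitone c) (t : ℕ) :
    Antitone (udyn z m n r c t).1 ∧ Antitone (udyn z m n r c t).2 := by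
  induction t with
  | zero => exact ⟨hr, hc⟩
  | succ t ih =>
    constructor
    · intro j j' h
      refine Nat.add_le_add (hr h) (Finset.card_le_card fun i hi => ?_)
      rw [Finset.mem_filter] at hi ⊢
      exact ⟨hi.1, hz.up hi.2 (ih.1 h) (le_refl _)⟩
    · intro i i' h
      refine Nat.add_le_add (hc h) (Finset.card_le_card fun j hj => ?_)
      rw [Finset.mem_filter] at hj ⊢
      exact ⟨hj.1, hz.up hj.2 (le_refl _) (ih.2 h)⟩

end

/-! ### Real dynamics -/

/-- number of points in a row -/
def rc (A : Finset (ℕ × ℕ)) (j : ℕ) : ℕ := (A.filter fun u => u.2 = j).card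

/-- number of points in a column -/
def cc (A : Finset (ℕ × ℕ)) (i : ℕ) : ℕ := (A.filter fun u => u.1 = i).card

/-- the zero set as a Boolean function -/
def zf (Z : Finset (ℕ × ℕ)) (x y : ℕ) : Bool := decide ((x, y) ∈ Z)

theorem zf_dn {Z : Finset (ℕ × ℕ)} (hZ : IsZero Z) : Dn (zf Z) := by
  intro x y x' y' h hx hy
  unfold zf at h ⊢
  simp only [decide_eq_true_eq] at h ⊢
  exact hZ x y x' y' h hx hy

theorem rowN_le (A : Finset (ℕ × ℕ)) (v : ℕ × ℕ) : rowN A v ≤ rc A v.2 := by
  refine Finset.card_le_card fun u hu => ?_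
  rw [Finset.mem_filter] at hu ⊢
  exact ⟨hu.1, hu.2.2⟩

theorem colN_le (A : Finset (ℕ × ℕ)) (v : ℕ × ℕ) : colN A v ≤ cc A v.1 := by
  refine Finset.card_le_card fun u hu => ?_
  rw [Finset.mem_filter] at hu ⊢
  exact ⟨hu.1, hu.2.2⟩

theorem rowN_eq {A : Finset (ℕ × ℕ)} {v : ℕ × ℕ} (hv : v ∉ A) : rowN A v = rc A v.2 := by
  unfold rowN rc
  congr 1
  refine Finset.filter_congr fun u hu => ?_
  constructor
  · exact fun h => h.2
  · intro h
    refine ⟨?_, h⟩
    rintro rfl
    exact hv hu

theorem colN_eq {A : Finset (ℕ × ℕ)} {v : ℕ × ℕ} (hv : v ∉ A) : colN A v = cc A v.1 := by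
  unfold colN cc
  congr 1
  refine Finset.filter_congr fun u hu => ?_
  constructor
  · exact fun h => h.2
  · intro h
    refine ⟨?_, h⟩
    rintro rfl
    exact hv hu

theorem mem_Rect {a b : ℕ} {v : ℕ × ℕ} : v ∈ Rect a b ↔ v.1 < a ∧ v.2 < b := by
  unfold Rect
  rw [Finset.mem_product, Finset.mem_range, Finset.mem_range]

/-- The line dynamics bounds the real dynamics. -/
theorem real_le {Z : Finset (ℕ × ℕ)} (hZ : IsZero Z) {m n : ℕ} {A : Finset (ℕ × ℕ)}
    (hA : A ⊆ Rect n m) (t : ℕ) :
    (stepT Z m n)^[t] A ⊆ Rect n m ∧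
    (∀ v ∈ (stepT Z m n)^[t] A, v ∈ A ∨ zf Z ((udyn (zf Z) m n (rc A) (cc A) t).1 v.2)
      ((udyn (zf Z) m n (rc A) (cc A) t).2 v.1) = false) ∧
    (∀ j, rc ((stepT Z m n)^[t] A) j ≤ (udyn (zf Z) m n (rc A) (cc A) t).1 j) ∧
    ∀ i, cc ((stepT Z m n)^[t] A) i ≤ (udyn (zf Z) m n (rc A) (cc A) t).2 i := by
  induction t with
  | zero => exact ⟨hA, fun v hv => Or.inl hv, fun _ => le_refl _, fun _ => le_refl _⟩
  | succ t ih =>
    rw [Function.iterate_succ_apply']
    set At := (stepT Z m n)^[t] A with hAt
    set u := udyn (zf Z) m n (rc A) (cc A) t with hu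
    obtain ⟨h1, h2, h3, h4⟩ := ih
    have hz := zf_dn hZ
    -- new points
    have h5 : ∀ v ∈ stepT Z m n At, v ∈ A ∨ zf Z (u.1 v.2) (u.2 v.1) = false := by
      intro v hv
      unfold stepT at hv
      rw [Finset.mem_union, Finset.mem_filter] at hv
      rcases hv with hv | ⟨_, _, hv⟩
      · exact h2 v hv
      · right
        have h6 : zf Z (rowN At v) (colN At v) = false := by
          unfold zf
          simpa using hv
        exact hz.up h6 ((rowN_le _ _).trans (h3 _)) ((colN_le _ _).trans (h4 _))
    have hsub : stepT Z m n At ⊆ Rect n m := by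
      intro v hv
      unfold stepT at hv
      rw [Finset.mem_union, Finset.mem_filter] at hv
      rcases hv with hv | hv
      · exact h1 hv
      · exact hv.1
    have hmono := udyn_mono (m := m) (n := n) (r := rc A) (c := cc A) hz t
    refine ⟨hsub, ?_, ?_, ?_⟩
    · intro v hv
      rcases h5 v hv with h | h
      · exact Or.inl h
      · exact Or.inr (hz.up h (hmono.1 _) (hmono.2 _))
    · intro j
      show rc _ j ≤ rc A j + _
      unfold rc
      have h6 : ((stepT Z m n At).filter fun u => u.2 = j) ⊆ (A.filter fun u => u.2 = j) ∪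
          (((Finset.range n).filter fun i => zf Z (u.1 j) (u.2 i) = false).image
            fun i => (i, j)) := by
        intro v hv
        rw [Finset.mem_filter] at hv
        rw [Finset.mem_union, Finset.mem_filter, Finset.mem_image]
        rcases h5 v hv.1 with h | h
        · exact Or.inl ⟨h, hv.2⟩
        · right
          refine ⟨v.1, ?_, ?_⟩
          · rw [Finset.mem_filter, Finset.mem_range]
            rw [hv.2] at h
            exact ⟨(mem_Rect.1 (hsub hv.1)).1, h⟩
          · rw [← hv.2]
      refine (Finset.card_le_card h6).trans ((Finset.card_union_le _ _).trans ?_)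
      exact Nat.add_le_add_left Finset.card_image_le _
    · intro i
      show cc _ i ≤ cc A i + _
      unfold cc
      have h6 : ((stepT Z m n At).filter fun u => u.1 = i) ⊆ (A.filter fun u => u.1 = i) ∪
          (((Finset.range m).filter fun j => zf Z (u.1 j) (u.2 i) = false).image
            fun j => (i, j)) := by
        intro v hv
        rw [Finset.mem_filter] at hv
        rw [Finset.mem_union, Finset.mem_filter, Finset.mem_image]
        rcases h5 v hv.1 with h | h
        · exact Or.inl ⟨h, hv.2⟩
        · right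
          refine ⟨v.2, ?_, ?_⟩
          · rw [Finset.mem_filter, Finset.mem_range]
            rw [hv.2] at h
            exact ⟨(mem_Rect.1 (hsub hv.1)).2, h⟩
          · rw [← hv.2]
      refine (Finset.card_le_card h6).trans ((Finset.card_union_le _ _).trans ?_)
      exact Nat.add_le_add_left Finset.card_image_le _

theorem sum_rc {m n : ℕ} {A : Finset (ℕ × ℕ)} (hA : A ⊆ Rect n m) :
    ∑ j ∈ Finset.range m, rc A j = A.card := by
  unfold rc
  rw [Finset.card_eq_sum_card_fiberwise (f := fun u : ℕ × ℕ => u.2) (t := Finset.range m)]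
  intro v hv
  have := mem_Rect.1 (hA hv)
  simpa using this.2

theorem sum_cc {m n : ℕ} {A : Finset (ℕ × ℕ)} (hA : A ⊆ Rect n m) :
    ∑ i ∈ Finset.range n, cc A i = A.card := by
  unfold cc
  rw [Finset.card_eq_sum_card_fiberwise (f := fun u : ℕ × ℕ => u.1) (t := Finset.range n)]
  intro v hv
  have := mem_Rect.1 (hA hv)
  simpa using this.1

theorem rc_Rect {m n j : ℕ} (hj : j < m) : rc (Rect n m) j = n := by
  unfold rc
  have : (Rect n m).filter (fun u => u.2 = j) = (Finset.range n).image fun i => (i, j) := by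
    ext v
    rw [Finset.mem_filter, mem_Rect, Finset.mem_image]
    constructor
    · rintro ⟨h1, rfl⟩
      exact ⟨v.1, Finset.mem_range.2 h1.1, rfl⟩
    · rintro ⟨i, hi, rfl⟩
      exact ⟨⟨Finset.mem_range.1 hi, hj⟩, rfl⟩
  rw [this, Finset.card_image_of_injective, Finset.card_range]
  intro a b h
  exact (Prod.ext_iff.1 h).1

/-! ### Lower bound: few levels suffice -/

/-- the profile `r` dominates the list of pairs (value, count) -/
def Dom (P : List (ℕ × ℕ)) (r : ℕ → ℕ) : Prop := ∀ p ∈ P, ∀ j < p.2, p.1 ≤ r j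

/-- exchanging rows and columns -/
theorem udyn_swap (z : ℕ → ℕ → Bool) (m n : ℕ) (r c : ℕ → ℕ) (t : ℕ) :
    udyn (fun x y => z y x) n m c r t = ((udyn z m n r c t).2, (udyn z m n r c t).1) := by
  induction t with
  | zero => rfl
  | succ t ih =>
    show (_, _) = _
    rw [ih]
    rfl

/-- **Key lemma.** `(r, c)` are the counts in the rectangle, `u` their dynamics. For every row `j`
there are few pairs such that every profile dominating them has large counts in the small
rectangle. -/
theorem demand (t : ℕ) : ∀ {z : ℕ → ℕ → Bool} {a b : ℕ}, Dn z → (∀ x y, z x y = true → x < a) →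
    (∀ x y, z x y = true → y < b) → ∀ {m n S : ℕ} {r c : ℕ → ℕ},
    ∑ j ∈ Finset.range m, r j ≤ S → ∑ i ∈ Finset.range n, c i ≤ S →
    ∀ j < m, ∃ P Q : List (ℕ × ℕ), P.length + 1 ≤ 2 ^ t ∧ Q.length + 1 ≤ 2 ^ t ∧
      (∀ p ∈ P, p.1 ≤ a ∧ p.2 ≤ b ∧ p.1 * p.2 ≤ S) ∧
      (∀ p ∈ Q, p.1 ≤ b ∧ p.2 ≤ a ∧ p.1 * p.2 ≤ S) ∧
      ∀ r' c' : ℕ → ℕ, Dom P r' → Dom Q c' → ∀ j', min a (r j) ≤ r' j' →
        min a ((udyn z m n r c t).1 j) ≤ (udyn z (b + 1) (a + 1) r' c' t).1 j' := by
  induction t with
  | zero =>
    intro z a b _ _ _ m n S r c _ _ j _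
    exact ⟨[], [], by simp, by simp, by simp, by simp, fun r' c' _ _ j' h => h⟩
  | succ t ih =>
    intro z a b hz ha hb m n S r c hr hc j hj
    have hcap : ∀ x y, z x y = false → z (min a x) (min b y) = false := by
      intro x y h
      by_contra hcon
      rw [Bool.not_eq_false] at hcon
      have h1 := ha _ _ hcon
      have h2 := hb _ _ hcon
      rw [min_eq_right (by omega), min_eq_right (by omega), h] at hcon
      exact absurd hcon (by simp)
    set I := (Finset.range n).filter fun i =>
      z ((udyn z m n r c t).1 j) ((udyn z m n r c t).2 i) = false with hI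
    have hval : (udyn z m n r c (t + 1)).1 j = r j + I.card := rfl
    by_cases hne : I.Nonempty
    · obtain ⟨i₀, hi₀, hmin⟩ := Finset.exists_min_image I c hne
      rw [hI, Finset.mem_filter, Finset.mem_range] at hi₀
      obtain ⟨P1, Q1, h1, h2, h3, h4, h5⟩ := ih hz ha hb hr hc j hj
      have hz' : Dn fun x y => z y x := fun x y x' y' h hx hy => hz _ _ _ _ h hy hx
      obtain ⟨Q2, P2, g1, g2, g3, g4, g5⟩ := ih (z := fun x y => z y x) (a := b) (b := a) hz'
        (fun x y h => hb _ _ h) (fun x y h => ha _ _ h) hc hr i₀ hi₀.1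
      -- number of columns with at least `c i₀` points
      have hcost : c i₀ * I.card ≤ S := by
        calc c i₀ * I.card = ∑ _i ∈ I, c i₀ := by
              rw [Finset.sum_const, smul_eq_mul, mul_comm]
          _ ≤ ∑ i ∈ I, c i := Finset.sum_le_sum fun i hi => hmin i hi
          _ ≤ ∑ i ∈ Finset.range n, c i :=
              Finset.sum_le_sum_of_subset (Finset.filter_subset _ _)
          _ ≤ S := hc
      refine ⟨P1 ++ P2, (min b (c i₀), min a I.card) :: (Q1 ++ Q2), ?_, ?_, ?_, ?_, ?_⟩
      · rw [List.length_append, pow_succ]; omega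
      · rw [List.length_cons, List.length_append, pow_succ]; omega
      · intro p hp
        rcases List.mem_append.1 hp with hp | hp
        · exact h3 p hp
        · exact g4 p hp
      · intro p hp
        rcases List.mem_cons.1 hp with rfl | hp
        · refine ⟨min_le_left _ _, min_le_left _ _, ?_⟩
          exact (Nat.mul_le_mul (min_le_right _ _) (min_le_right _ _)).trans hcost
        · rcases List.mem_append.1 hp with hp | hp
          · exact h4 p hp
          · exact g3 p hp
      · intro r' c' hP hQ j' hj'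
        rw [hval]
        have e1 := h5 r' c' (fun p hp => hP p (List.mem_append_left _ hp))
          (fun p hp => hQ p (List.mem_cons_of_mem _ (List.mem_append_left _ hp))) j' hj'
        have e2 : ∀ i < min a I.card, min b ((udyn z m n r c t).2 i₀) ≤
            (udyn z (b + 1) (a + 1) r' c' t).2 i := by
          intro i hi
          have e3 := g5 c' r' (fun p hp => hQ p (List.mem_cons_of_mem _
            (List.mem_append_right _ hp))) (fun p hp => hP p (List.mem_append_right _ hp)) i
            (hQ (min b (c i₀), min a I.card) List.mem_cons_self i hi)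
          rw [udyn_swap z m n r c t, udyn_swap z (b + 1) (a + 1) r' c' t] at e3
          exact e3
        have hsub : Finset.range (min a I.card) ⊆ (Finset.range (a + 1)).filter fun i =>
            z ((udyn z (b + 1) (a + 1) r' c' t).1 j')
              ((udyn z (b + 1) (a + 1) r' c' t).2 i) = false := by
          intro i hi
          rw [Finset.mem_range] at hi
          rw [Finset.mem_filter, Finset.mem_range]
          refine ⟨by have := min_le_left a I.card; omega, ?_⟩
          exact hz.up (hcap _ _ hi₀.2) e1 (e2 i hi)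
        have h6 := Finset.card_le_card hsub
        rw [Finset.card_range] at h6
        show _ ≤ r' j' + _
        omega
    · rw [Finset.not_nonempty_iff_eq_empty] at hne
      refine ⟨[], [], by simp; exact Nat.one_le_two_pow, by simp; exact Nat.one_le_two_pow,
        by simp, by simp, fun r' c' _ _ j' h => ?_⟩
      rw [hval, hne, Finset.card_empty, Nat.add_zero]
      exact h.trans ((udyn_ge (t + 1)).1 j')

end Pool.Agent.V11223.YD
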